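import Pool.Agent.Lib.MP_adc574_ag_TT.U4
import Pool.Agent.Lib.MP_adc574_ag_TT.D1

/-!
# Bigraded subspaces: definitions

For a transport `T` and filtrations `Fl`, `P` of `H n`, a subspace `U` of `H n` is bigraded (`Bi`) if `U_K` is the sum of its
intersections with the `GK (Fl j) ⊓ QK (P j)`.
-/

set_option autoImplicit false

namespace MPadcTT

universe u v w

section

variable {k : Type u} [Field k] {H : ℕ → Type v} [∀ n, AddCommGroup (H n)] [∀ n, Module k (H n)]
  {C : ∀ n, Cn k (H n)} {mu : ∀ n m, H n →ₗ[k] H m →ₗ[k] H (n + m)} {β : ℕ → Type} [∀ n, Fintype (β n)]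
  {b : ∀ n, Module.Basis (β n) k (H n)} {R : Type w} [CommRing R] [Algebra k R]

/-- The subspace `U` is bigraded. -/
def Bi (K : Type w) [Field K] [Algebra R K] (T : Tr C mu b R) {n : ℕ} (Fl P : ℕ → Submodule k (H n))
    (U : Submodule k (H n)) : Prop :=
  QK b R K U ≤ ⨆ j, GK K T (Fl j) ⊓ QK b R K (P j) ⊓ QK b R K U

end

section

variable {k : Type u} [Field k] {H : ℕ → Type v} [∀ n, AddCommGroup (H n)] [∀ n, Module k (H n)]
  (C : ∀ n, Cn k (H n)) (mu : ∀ n m, H n →ₗ[k] H m →ₗ[k] H (n + m)) {β : ℕ → Type} [∀ n, Fintype (β n)]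
  (b : ∀ n, Module.Basis (β n) k (H n))

/-- `U` is bigraded for all the transports which represent the words of a finite set. -/
def Sem (Fl P : ∀ n, ℕ → Submodule k (H n)) (n : ℕ) (U : Submodule k (H n)) : Prop :=
  ∃ S : List (List (Derivation ℤ k k)), ∀ (R : Type u) [CommRing R] [IsDomain R] [Algebra k R] (T : Tr C mu b R),
    (∀ w ∈ S, T.Rep w) → Bi (FractionRing R) T (Fl n) (P n) U

end

end MPadcTT
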