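import Pool.Agent.Lib.MP_adc574_ag_TB.G0

/-! LEAF G1: sums, intersections and stable subspaces over the fraction field -/

set_option autoImplicit false

namespace MPadcTT

universe u v w

variable {k : Type u} [Field k] {H : ℕ → Type v} [∀ n, AddCommGroup (H n)] [∀ n, Module k (H n)]
  {C : ∀ n, Cn k (H n)} {mu : ∀ n m, H n →ₗ[k] H m →ₗ[k] H (n + m)} {β : ℕ → Type} [∀ n, Fintype (β n)]
  {b : ∀ n, Module.Basis (β n) k (H n)} {R : Type w} [CommRing R] [IsDomain R] [Algebra k R] (K : Type w) [Field K]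
  [Algebra R K] [IsFractionRing R K]

omit [IsDomain R] [IsFractionRing R K] in
private theorem G1_TK_add (T : Tr C mu b R) {n : ℕ} (x y : H n) : TK K T (x + y) = TK K T x + TK K T y := by
  funext i
  show algebraMap R K (T.T n (x + y) i) = algebraMap R K (T.T n x i) + algebraMap R K (T.T n y i)
  rw [T.add, map_add]

omit [IsDomain R] [IsFractionRing R K] in
private theorem G1_cK_add {n : ℕ} (x y : H n) : cK b R K (x + y) = cK b R K x + cK b R K y := by
  funext i
  show algebraMap R K (algebraMap k R ((b n).repr (x + y) i)) =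
    algebraMap R K (algebraMap k R ((b n).repr x i)) + algebraMap R K (algebraMap k R ((b n).repr y i))
  rw [map_add, Finsupp.add_apply, map_add, map_add]

theorem gk_mono (T : Tr C mu b R) {n : ℕ} {F F' : Submodule k (H n)} (h : F ≤ F') : GK K T F ≤ GK K T F' := by
  exact Submodule.span_mono (Set.image_mono h)

theorem qk_mono {n : ℕ} {P P' : Submodule k (H n)} (h : P ≤ P') : QK b R K P ≤ QK b R K P' := by
  exact Submodule.span_mono (Set.image_mono h)

/-- Proof. `≤`: `T.add`. -/
theorem gk_sup (T : Tr C mu b R) {n : ℕ} (F F' : Submodule k (H n)) : GK K T (F ⊔ F') = GK K T F ⊔ GK K T F' := by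
  refine le_antisymm (Submodule.span_le.2 ?_) (sup_le (gk_mono K T le_sup_left) (gk_mono K T le_sup_right))
  rintro _ ⟨x, hx, rfl⟩
  obtain ⟨y, hy, z, hz, rfl⟩ := Submodule.mem_sup.1 hx
  rw [G1_TK_add]
  exact Submodule.add_mem_sup (Submodule.subset_span ⟨y, hy, rfl⟩) (Submodule.subset_span ⟨z, hz, rfl⟩)

theorem qk_sup {n : ℕ} (P P' : Submodule k (H n)) : QK b R K (P ⊔ P') = QK b R K P ⊔ QK b R K P' := by
  refine le_antisymm (Submodule.span_le.2 ?_) (sup_le (qk_mono K le_sup_left) (qk_mono K le_sup_right))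
  rintro _ ⟨x, hx, rfl⟩
  obtain ⟨y, hy, z, hz, rfl⟩ := Submodule.mem_sup.1 hx
  rw [G1_cK_add]
  exact Submodule.add_mem_sup (Submodule.subset_span ⟨y, hy, rfl⟩) (Submodule.subset_span ⟨z, hz, rfl⟩)

/-- Proof. `≤` by `gk_mono`; equality because of the dimensions: `finrank_GK`, `gk_sup`, `Submodule.finrank_sup_add_finrank_inf_eq` for `F`, `F'` and for `GK F`, `GK F'`; `Submodule.eq_of_le_of_finrank_eq`. -/
theorem gk_inf (T : Tr C mu b R) {n : ℕ} (F F' : Submodule k (H n)) : GK K T (F ⊓ F') = GK K T F ⊓ GK K T F' := by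
  have : Module.Finite k (H n) := Module.Finite.of_basis (b n)
  refine Submodule.eq_of_le_of_finrank_eq (le_inf (gk_mono K T inf_le_left) (gk_mono K T inf_le_right)) ?_
  have h1 := Submodule.finrank_sup_add_finrank_inf_eq F F'
  have h2 := Submodule.finrank_sup_add_finrank_inf_eq (GK K T F) (GK K T F')
  rw [← gk_sup, finrank_GK, finrank_GK, finrank_GK] at h2
  rw [finrank_GK]
  omega

theorem qk_inf {n : ℕ} (P P' : Submodule k (H n)) : QK b R K (P ⊓ P') = QK b R K P ⊓ QK b R K P' := by
  have : Module.Finite k (H n) := Module.Finite.of_basis (b n)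
  refine Submodule.eq_of_le_of_finrank_eq (le_inf (qk_mono K inf_le_left) (qk_mono K inf_le_right)) ?_
  have h1 := Submodule.finrank_sup_add_finrank_inf_eq P P'
  have h2 := Submodule.finrank_sup_add_finrank_inf_eq (QK b R K P) (QK b R K P')
  rw [← qk_sup, finrank_QK, finrank_QK, finrank_QK] at h2
  rw [finrank_QK]
  omega

theorem qk_bot (n : ℕ) : QK b R K (⊥ : Submodule k (H n)) = ⊥ := by
  rw [eq_bot_iff]
  refine Submodule.span_le.2 ?_
  rintro _ ⟨x, hx, rfl⟩
  have hx0 : x = 0 := (Submodule.mem_bot k).1 hx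
  show cK b R K x ∈ (⊥ : Submodule K (β n → K))
  rw [hx0, Submodule.mem_bot]
  funext i
  show algebraMap R K (algebraMap k R ((b n).repr 0 i)) = 0
  rw [map_zero, Finsupp.zero_apply, map_zero, map_zero]

end MPadcTT
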