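import Pool.Agent.Lib.MP_adc574_ag_TB.G4
import Pool.Agent.Lib.MP_adc574_ag_TT.T8
import Pool.Agent.Lib.MP_adc574_ag_TT.V2

/-! LEAF G10: position on a stable subspace -/

set_option autoImplicit false

namespace MPadcTT

universe u v w

/-- Proof. As `pos_of_opp` (TT/V2), in `V` with the connection `(C n).res V hV`: `opp_fin` gives `lam`, `f` for `F ⊓ V`, `P ⊓ V`; let `lam' i` be the restriction of `lam i` to `V`, `f' j` the element `f j` of `V`. If all forms in `W` vanish on `F` then `dls ((C n).res V hV) w ω f' = 0` for the given `ω` and all `w` (`hor_dls`),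
so `dls ((C n).res V hV) w (Dt lam') f' = 0` for all `w` (`form_eq`, `dls_smul`; or `Dt lam' = 0` identically), so `dls (C n) w (Dt lam) f = 0` for all `w` (`dls_res`), and `T.van` for the word `[]` says `T.Ps lam f = 0`. -/
theorem pos_part {k : Type u} [Field k] {H : ℕ → Type v} [∀ n, AddCommGroup (H n)] [∀ n, Module k (H n)]
    {C : ∀ n, Cn k (H n)} {mu : ∀ n m, H n →ₗ[k] H m →ₗ[k] H (n + m)} {β : ℕ → Type} [∀ n, Fintype (β n)]
    {b : ∀ n, Module.Basis (β n) k (H n)} {R : Type w} [CommRing R] [Algebra k R] (T : Tr C mu b R) {n : ℕ}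
    {F P V : Submodule k (H n)} (hV : ∀ D, ∀ x ∈ V, (C n).c D x ∈ V) (h : Opp T (F ⊓ V) (P ⊓ V))
    (hd : Module.finrank k ↥(P ⊓ V) + Module.finrank k ↥(F ⊓ V) = Module.finrank k V)
    (W : Submodule k (V [⋀^Fin (Module.finrank k ↥(F ⊓ V))]→ₗ[k] k)) (hW : Hor ((C n).res V hV) W)
    (hω : ∃ ω ∈ W, ω ≠ 0 ∧ ∀ x : Fin (Module.finrank k ↥(F ⊓ V)) → V, (∃ l, (x l : H n) ∈ P) → ω x = 0) :
    ∃ ω ∈ W, ∃ x, (∀ l, (x l : H n) ∈ F) ∧ ω x ≠ 0 := by
  obtain ⟨lam, f, hl, hf, hn⟩ := opp_fin T h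
  obtain ⟨ω, hωW, h0, hP⟩ := hω
  have : FiniteDimensional k (H n) := Module.Finite.of_basis (b n)
  by_contra hcon
  obtain ⟨f', hf'⟩ : ∃ f' : Fin (Module.finrank k ↥(F ⊓ V)) → V, ∀ j, (f' j : H n) = f j :=
    ⟨fun j => ⟨f j, (hf j).2⟩, fun j => rfl⟩
  have hz : ∀ ω ∈ W, ω f' = 0 := by
    intro ω hω
    by_contra h1
    exact hcon ⟨ω, hω, f', fun l => by rw [hf']; exact (hf l).1, h1⟩
  have hfin : Module.finrank k ↥(P.comap V.subtype) = Module.finrank k ↥(P ⊓ V) := by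
    have h1 : (P.comap V.subtype).map V.subtype = P ⊓ V := by
      rw [Submodule.map_comap_eq, Submodule.range_subtype, inf_comm]
    rw [← h1]
    exact (Submodule.equivMapOfInjective V.subtype V.injective_subtype (P.comap V.subtype)).finrank_eq
  refine hn ?_
  refine T.van n (Fin (Module.finrank k ↥(F ⊓ V))) lam f ?_ []
  intro w
  have hff : f = fun j => (f' j : H n) := funext fun j => (hf' j).symm
  have hres : dls (C n) w (Dt lam) f = dls ((C n).res V hV) w (Dt fun i => (lam i).comp V.subtype) f' := by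
    rw [hff, dls_res (C n) V hV]
    rfl
  rw [hres]
  by_cases hg : ∃ g, Dt (fun i => (lam i).comp V.subtype) g ≠ 0
  · obtain ⟨g, hg⟩ := hg
    obtain ⟨c, hc, he⟩ := form_eq (P := P.comap V.subtype) (by rw [hfin, add_comm]; exact hd)
      (fun i => (lam i).comp V.subtype) (fun i x hx => hl i x ⟨hx, x.2⟩) g hg ω h0 hP
    have h2 := hor_dls ((C n).res V hV) hW f' hz w ω hωW
    have h3 : (fun y : Fin (Module.finrank k ↥(F ⊓ V)) → V => ω y) =
        fun y => c * Dt (fun i => (lam i).comp V.subtype) y := funext he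
    rw [h3, dls_smul] at h2
    exact (mul_eq_zero.1 h2).resolve_left hc
  · have h3 : (Dt (fun i => (lam i).comp V.subtype) : (Fin (Module.finrank k ↥(F ⊓ V)) → V) → k) =
        fun y => 0 * Dt (fun i => (lam i).comp V.subtype) y := by
      funext y
      rw [zero_mul]
      by_contra h4
      exact hg ⟨y, h4⟩
    rw [h3, dls_smul, zero_mul]

/-- Proof. `exists_tr` for the list of `Sem`, `sup_of_bi`, `opp_of_sup` with `K = FractionRing R`, `pos_part`. -/
theorem pos_of_sem {k : Type u} [Field k] [CharZero k] {H : ℕ → Type v} [∀ n, AddCommGroup (H n)] [∀ n, Module k (H n)]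
    {C : ∀ n, Cn k (H n)} {mu : ∀ n m, H n →ₗ[k] H m →ₗ[k] H (n + m)} {β : ℕ → Type} [∀ n, Fintype (β n)]
    {b : ∀ n, Module.Basis (β n) k (H n)}
    (hmu : ∀ D n m x y, (C (n + m)).c D (mu n m x y) = mu n m ((C n).c D x) y + mu n m x ((C m).c D y))
    {Fl P : ∀ n, ℕ → Submodule k (H n)} (anti : ∀ n i, Fl n (i + 1) ≤ Fl n i) (mono : ∀ n i, P n i ≤ P n (i + 1)) {n : ℕ}
    {V : Submodule k (H n)} (hV : ∀ D, ∀ x ∈ V, (C n).c D x ∈ V) (h : Sem C mu b Fl P n V) (i : ℕ)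
    (hd : Module.finrank k ↥(P n i ⊓ V) + Module.finrank k ↥(Fl n (i + 1) ⊓ V) = Module.finrank k V)
    (W : Submodule k (V [⋀^Fin (Module.finrank k ↥(Fl n (i + 1) ⊓ V))]→ₗ[k] k)) (hW : Hor ((C n).res V hV) W)
    (hω : ∃ ω ∈ W, ω ≠ 0 ∧
      ∀ x : Fin (Module.finrank k ↥(Fl n (i + 1) ⊓ V)) → V, (∃ l, (x l : H n) ∈ P n i) → ω x = 0) :
    ∃ ω ∈ W, ∃ x, (∀ l, (x l : H n) ∈ Fl n (i + 1)) ∧ ω x ≠ 0 := by
  obtain ⟨S, hS⟩ := h
  obtain ⟨R, i1, i2, i3, T, h0, hT⟩ := exists_tr (b := b) hmu S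
  have hBi := hS R T hT
  have hsup := sup_of_bi (FractionRing R) T (anti n) (mono n) V hV hBi i
  have hopp := opp_of_sup (FractionRing R) T hV hd hsup
  exact pos_part T hV hopp hd W hW hω

end MPadcTT
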