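import Pool.Agent.Lib.MP_adc574_ag_TB.G1

/-! LEAF G2: kernels and stable subspaces over the fraction field -/

set_option autoImplicit false

namespace MPadcTT

universe u v w

variable {k : Type u} [Field k] {H : ℕ → Type v} [∀ n, AddCommGroup (H n)] [∀ n, Module k (H n)]
  {C : ∀ n, Cn k (H n)} {mu : ∀ n m, H n →ₗ[k] H m →ₗ[k] H (n + m)} {β : ℕ → Type} [∀ n, Fintype (β n)]
  {b : ∀ n, Module.Basis (β n) k (H n)} {R : Type w} [CommRing R] [IsDomain R] [Algebra k R] (K : Type w) [Field K]
  [Algebra R K] [IsFractionRing R K]

omit [IsDomain R] [IsFractionRing R K] in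
private theorem G2a_eval {n : ℕ} (l : H n →ₗ[k] k) (x : H n) :
    ∑ a, algebraMap R K (algebraMap k R (l (b n a))) * cK b R K x a = algebraMap R K (algebraMap k R (l x)) := by
  conv_rhs => rw [← (b n).sum_repr x]
  rw [map_sum, map_sum, map_sum]
  refine Finset.sum_congr rfl fun a _ => ?_
  show algebraMap R K (algebraMap k R (l (b n a))) * algebraMap R K (algebraMap k R ((b n).repr x a)) = _
  rw [map_smul, smul_eq_mul, map_mul, map_mul, mul_comm]

/-- The common kernel of a family of functionals over `K`. Proof. `→`: on `cK x` the sum is `algebraMap (lam i x)`, and it is linear in `y`. `←`: let `S` be the span of the `lam i` in the dual space, `P` its annihilator: `finrank S + finrank P = finrank (H n)`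
(`Subspace.finrank_add_finrank_dualCoannihilator_eq`); choose a basis of `S` among the `lam i`, these functionals are linearly independent over `K` too (some minor is not zero), so their common kernel over `K` has the dimension `finrank (H n) - finrank S = finrank (QK P)` (`finrank_QK`). -/
theorem mem_qk {n : ℕ} {ι : Type*} (lam : ι → H n →ₗ[k] k) (P : Submodule k (H n)) (hP : ∀ x, x ∈ P ↔ ∀ i, lam i x = 0)
    (y : β n → K) :
    y ∈ QK b R K P ↔ ∀ i, ∑ a, algebraMap R K (algebraMap k R (lam i (b n a))) * y a = 0 := by
  constructor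
  · intro hy i
    have h1 : ∀ z ∈ cK b R K '' (P : Set (H n)),
        ∑ a, algebraMap R K (algebraMap k R (lam i (b n a))) * z a = 0 := by
      rintro _ ⟨x, hx, rfl⟩
      rw [G2a_eval, (hP x).1 hx i, map_zero, map_zero]
    refine Submodule.span_induction (p := fun z _ => ∑ a, algebraMap R K (algebraMap k R (lam i (b n a))) * z a = 0)
      h1 ?_ ?_ ?_ hy
    · simp
    · intro z z' _ _ hz hz'
      simp only [Pi.add_apply, mul_add, Finset.sum_add_distrib, hz, hz', add_zero]
    · intro c z _ hz
      have h2 : ∀ a, algebraMap R K (algebraMap k R (lam i (b n a))) * (c • z) a =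
          c * (algebraMap R K (algebraMap k R (lam i (b n a))) * z a) := by
        intro a
        rw [Pi.smul_apply, smul_eq_mul]
        ring
      simp only [h2]
      rw [← Finset.mul_sum, hz, mul_zero]
  · intro h
    classical
    let τ : k →+* K := (algebraMap R K).comp (algebraMap k R)
    let _ : Algebra k K := τ.toAlgebra
    have hτ : ∀ c : k, algebraMap k K c = algebraMap R K (algebraMap k R c) := fun _ => rfl
    let e := Module.Basis.ofVectorSpace k K
    let S := Finset.univ.biUnion fun a => (e.repr (y a)).support
    let x : _ → H n := fun s => ∑ a, (e.repr (y a) s) • b n a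
    have hx : ∀ s a, (b n).repr (x s) a = e.repr (y a) s := by
      intro s a
      show (b n).repr (∑ a, (e.repr (y a) s) • b n a) a = _
      rw [Module.Basis.repr_sum_self]
    have hy : ∀ a, y a = ∑ s ∈ S, e s * algebraMap k K (e.repr (y a) s) := by
      intro a
      conv_lhs => rw [← e.linearCombination_repr (y a)]
      rw [Finsupp.linearCombination_apply, Finsupp.sum_of_support_subset (s := S) _ _ _ (by simp)]
      · refine Finset.sum_congr rfl fun s _ => ?_
        rw [Algebra.smul_def, mul_comm]
      · intro s hs
        exact Finset.mem_biUnion.2 ⟨a, Finset.mem_univ _, hs⟩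
    have hxP : ∀ s, x s ∈ P := by
      intro s
      rw [hP]
      intro i
      have h1 : ∑ a, (lam i (b n a)) • y a = 0 := by
        have h2 := h i
        simp only [Algebra.smul_def, hτ]
        exact h2
      have h3 := congrArg (fun z => e.repr z s) h1
      simp only [map_sum, map_smul, Finsupp.finsetSum_apply, Finsupp.smul_apply, map_zero, Finsupp.coe_zero,
        Pi.zero_apply, smul_eq_mul] at h3
      show lam i (∑ a, (e.repr (y a) s) • b n a) = 0
      rw [map_sum, ← h3]
      refine Finset.sum_congr rfl fun a _ => ?_
      rw [map_smul, smul_eq_mul, mul_comm]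
    have hy' : y = ∑ s ∈ S, e s • cK b R K (x s) := by
      funext a
      rw [Finset.sum_apply, hy a]
      refine Finset.sum_congr rfl fun s _ => ?_
      rw [Pi.smul_apply, smul_eq_mul]
      show _ = e s * algebraMap R K (algebraMap k R ((b n).repr (x s) a))
      rw [hx, hτ]
    rw [hy']
    exact Submodule.sum_mem _ fun s _ => Submodule.smul_mem _ _ (Submodule.subset_span ⟨x s, hxP s, rfl⟩)

/-- Proof. `GK V ≤ QK V`: `V` is the common kernel of the functionals which vanish on `V` (`Submodule.exists_le_ker_of_notMem` or `Submodule.dualAnnihilator`), so `mem_qk` and `ev_of_stable` for `x` in `V`. Equality by the dimensions. -/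
theorem gk_of_stable (T : Tr C mu b R) {n : ℕ} (V : Submodule k (H n)) (hV : ∀ D, ∀ x ∈ V, (C n).c D x ∈ V) :
    GK K T V = QK b R K V := by
  have : Module.Finite k (H n) := Module.Finite.of_basis (b n)
  have hle : GK K T V ≤ QK b R K V := by
    refine Submodule.span_le.2 ?_
    rintro _ ⟨x, hx, rfl⟩
    refine (mem_qk (b := b) (R := R) K (fun l : {lam : H n →ₗ[k] k // ∀ x ∈ V, lam x = 0} => l.1) V (fun x => ⟨fun hx l => l.2 x hx, fun h => ?_⟩)
      (TK K T x)).2 fun l => ?_
    · by_contra hx
      obtain ⟨f, hf1, hf2⟩ := Submodule.exists_le_ker_of_notMem hx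
      exact hf1 (h ⟨f, fun y hy => LinearMap.mem_ker.1 (hf2 hy)⟩)
    · have h1 := ev_of_stable T V hV l.1 l.2 x hx
      have h2 := congrArg (algebraMap R K) h1
      rw [map_zero, ev, map_sum] at h2
      rw [← h2]
      exact Finset.sum_congr rfl fun a _ => by rw [map_mul]; rfl
  exact Submodule.eq_of_le_of_finrank_eq hle (by rw [finrank_GK, finrank_QK])

end MPadcTT
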