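import Pool.Agent.Lib.MP_adc574_ag_TB.G2

/-! LEAF G3: the two subspaces span a stable subspace, and conversely -/

set_option autoImplicit false

namespace MPadcTT

universe u v w

variable {k : Type u} [Field k] {H : ℕ → Type v} [∀ n, AddCommGroup (H n)] [∀ n, Module k (H n)]
  {C : ∀ n, Cn k (H n)} {mu : ∀ n m, H n →ₗ[k] H m →ₗ[k] H (n + m)} {β : ℕ → Type} [∀ n, Fintype (β n)]
  {b : ∀ n, Module.Basis (β n) k (H n)} {R : Type w} [CommRing R] [IsDomain R] [Algebra k R] (K : Type w) [Field K]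
  [Algebra R K] [IsFractionRing R K]

/-- Proof. `GK (F ⊓ V) ≤ GK V = QK V` (`gk_of_stable`), `QK (P ⊓ V) ≤ QK V`, `disj_of_opp`, and the dimensions `finrank_GK`, `finrank_QK`. -/
theorem sup_of_opp (T : Tr C mu b R) {n : ℕ} {F P V : Submodule k (H n)} (hV : ∀ D, ∀ x ∈ V, (C n).c D x ∈ V)
    (hd : Module.finrank k ↥(P ⊓ V) + Module.finrank k ↥(F ⊓ V) = Module.finrank k V)
    (h : Opp T (F ⊓ V) (P ⊓ V)) : QK b R K V ≤ GK K T (F ⊓ V) ⊔ QK b R K (P ⊓ V) := by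
  have h1 : GK K T (F ⊓ V) ≤ QK b R K V := by
    rw [← gk_of_stable K T V hV]
    exact gk_mono K T inf_le_right
  have h2 : QK b R K (P ⊓ V) ≤ QK b R K V := qk_mono K inf_le_right
  have h3 : GK K T (F ⊓ V) ⊓ QK b R K (P ⊓ V) = ⊥ := disj_of_opp K T h
  have h4 := Submodule.finrank_sup_add_finrank_inf_eq (GK K T (F ⊓ V)) (QK b R K (P ⊓ V))
  rw [h3, finrank_bot, add_zero, finrank_GK, finrank_QK] at h4
  refine (Submodule.eq_of_le_of_finrank_eq (sup_le h1 h2) ?_).ge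
  rw [h4, finrank_QK, ← hd, add_comm]

/-- Proof. The dimensions give `GK (F ⊓ V) ⊓ QK (P ⊓ V) = ⊥`. Let `V'` be a complement of `V` in `H n`, `P' = (P ⊓ V) ⊔ V'`. Then `finrank P' + finrank (F ⊓ V) = finrank (H n)`, and `GK (F ⊓ V) ⊓ QK P' ≤ QK V ⊓ QK P' = QK (V ⊓ P') = QK (P ⊓ V)`
(`qk_inf`, `gk_of_stable`, modular law), so it is `⊥`: `opp_of_disj` with `P'`, and `P ⊓ V ≤ P'`. -/
theorem opp_of_sup (T : Tr C mu b R) {n : ℕ} {F P V : Submodule k (H n)} (hV : ∀ D, ∀ x ∈ V, (C n).c D x ∈ V)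
    (hd : Module.finrank k ↥(P ⊓ V) + Module.finrank k ↥(F ⊓ V) = Module.finrank k V)
    (h : QK b R K V ≤ GK K T (F ⊓ V) ⊔ QK b R K (P ⊓ V)) : Opp T (F ⊓ V) (P ⊓ V) := by
  have hfin : Module.Finite k (H n) := Module.Finite.of_basis (b n)
  have h1 : GK K T (F ⊓ V) ≤ QK b R K V := by
    rw [← gk_of_stable K T V hV]
    exact gk_mono K T inf_le_right
  have h2 : QK b R K (P ⊓ V) ≤ QK b R K V := qk_mono K inf_le_right
  have h3 : GK K T (F ⊓ V) ⊔ QK b R K (P ⊓ V) = QK b R K V := le_antisymm (sup_le h1 h2) h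
  have h4 : GK K T (F ⊓ V) ⊓ QK b R K (P ⊓ V) = ⊥ := by
    have h5 := Submodule.finrank_sup_add_finrank_inf_eq (GK K T (F ⊓ V)) (QK b R K (P ⊓ V))
    rw [h3, finrank_GK, finrank_QK, finrank_QK] at h5
    exact Submodule.finrank_eq_zero.1 (by omega)
  obtain ⟨V', hV'⟩ := Submodule.exists_isCompl V
  have h5 : (P ⊓ V ⊔ V') ⊓ V = P ⊓ V := by
    rw [sup_inf_assoc_of_le V' (inf_le_right : P ⊓ V ≤ V), hV'.symm.inf_eq_bot, sup_bot_eq]
  have h6 : P ⊓ V ⊓ V' = ⊥ := by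
    rw [inf_assoc, hV'.inf_eq_bot, inf_bot_eq]
  have h7 : Module.finrank k ↥(P ⊓ V ⊔ V') + Module.finrank k ↥(F ⊓ V) = Module.finrank k (H n) := by
    have e1 := Submodule.finrank_sup_add_finrank_inf_eq (P ⊓ V) V'
    rw [h6, finrank_bot] at e1
    have e2 := Submodule.finrank_add_eq_of_isCompl hV'
    omega
  have h8 : GK K T (F ⊓ V) ⊓ QK b R K (P ⊓ V ⊔ V') = ⊥ := by
    rw [eq_bot_iff, ← h4]
    refine le_inf inf_le_left ?_
    have e1 : QK b R K (P ⊓ V) = QK b R K (P ⊓ V ⊔ V') ⊓ QK b R K V := by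
      rw [← qk_inf, h5]
    rw [e1]
    exact le_inf inf_le_right (inf_le_left.trans h1)
  obtain ⟨ι, i1, i2, lam, f, a1, a2, a3, a4⟩ := opp_of_disj K T h7 h8
  exact ⟨ι, i1, i2, lam, f, fun i x hx => a1 i x (Submodule.mem_sup_left hx), a2, a3, a4⟩

end MPadcTT
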