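import Pool.Agent.Lib.MP_adc574_ag_TB.G3

/-! LEAF G4: bigraded stable subspaces -/

set_option autoImplicit false

namespace MPadcTT

universe u v w

variable {k : Type u} [Field k] {H : ℕ → Type v} [∀ n, AddCommGroup (H n)] [∀ n, Module k (H n)]
  {C : ∀ n, Cn k (H n)} {mu : ∀ n m, H n →ₗ[k] H m →ₗ[k] H (n + m)} {β : ℕ → Type} [∀ n, Fintype (β n)]
  {b : ∀ n, Module.Basis (β n) k (H n)} {R : Type w} [CommRing R] [IsDomain R] [Algebra k R] (K : Type w) [Field K]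
  [Algebra R K] [IsFractionRing R K]

/-- Proof. Let `N = ⨆ j, GK (Fl j) ⊓ QK (P j) ⊓ QK V`. Induction on `i`: `QK (P i ⊓ V) ≤ N`. For `i = 0`: `GK (Fl 0) = ⊤` (`GK_top`). Step: `y` in `QK (P (i + 1) ⊓ V) ≤ QK V` is `a + c` with `a` in `GK (Fl (i + 1) ⊓ V)`, `c` in `QK (P i ⊓ V) ≤ N`, and `a = y - c` is in
`QK (P (i + 1))` and in `QK V`. Finally `P n ⊓ V = V` by `dim n` and `top`. -/
theorem bi_of_sup (T : Tr C mu b R) {n : ℕ} {Fl P : ℕ → Submodule k (H n)} (zero : Fl 0 = ⊤) (top : ∀ i, n < i → Fl i = ⊥)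
    (mono : ∀ i, P i ≤ P (i + 1)) (V : Submodule k (H n))
    (dim : ∀ i, Module.finrank k ↥(P i ⊓ V) + Module.finrank k ↥(Fl (i + 1) ⊓ V) = Module.finrank k V)
    (h : ∀ i < n, QK b R K V ≤ GK K T (Fl (i + 1) ⊓ V) ⊔ QK b R K (P i ⊓ V)) : Bi K T Fl P V := by
  have hfin : FiniteDimensional k (H n) := Module.Finite.of_basis (b n)
  have key : ∀ i ≤ n, QK b R K (P i ⊓ V) ≤ ⨆ j, GK K T (Fl j) ⊓ QK b R K (P j) ⊓ QK b R K V := by
    intro i
    induction i with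
    | zero =>
      intro _ y hy
      refine Submodule.mem_iSup_of_mem 0 ⟨⟨?_, qk_mono K inf_le_left hy⟩, qk_mono K inf_le_right hy⟩
      rw [zero, GK_top]
      trivial
    | succ i ih =>
      intro hi y hy
      have hyP : y ∈ QK b R K (P (i + 1)) := qk_mono K inf_le_left hy
      have hyV : y ∈ QK b R K V := qk_mono K inf_le_right hy
      obtain ⟨a, ha, c, hc, rfl⟩ := Submodule.mem_sup.1 (h i (by omega) hyV)
      refine Submodule.add_mem _ ?_ (ih (by omega) hc)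
      have hcP : c ∈ QK b R K (P (i + 1)) := qk_mono K (le_trans inf_le_left (mono i)) hc
      have hcV : c ∈ QK b R K V := qk_mono K inf_le_right hc
      refine Submodule.mem_iSup_of_mem (i + 1) ⟨⟨gk_mono K T inf_le_left ha, ?_⟩, ?_⟩
      · exact (Submodule.add_mem_iff_left _ hcP).1 hyP
      · exact (Submodule.add_mem_iff_left _ hcV).1 hyV
  have hV : P n ⊓ V = V := by
    refine Submodule.eq_of_le_of_finrank_eq inf_le_right ?_
    have h1 := dim n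
    rw [top (n + 1) (by omega), bot_inf_eq, finrank_bot, add_zero] at h1
    exact h1
  intro y hy
  refine key n le_rfl ?_
  rw [hV]
  exact hy

/-- Proof. `y` in `QK V` is a sum of elements `y_j` of `GK (Fl j) ⊓ QK (P j) ⊓ QK V`; `QK V = GK V`; for `j ≤ i` it is in `QK (P i) ⊓ QK V = QK (P i ⊓ V)`, for `j > i` in `GK (Fl (i + 1)) ⊓ GK V = GK (Fl (i + 1) ⊓ V)` (`gk_inf`, `qk_inf`). -/
theorem sup_of_bi (T : Tr C mu b R) {n : ℕ} {Fl P : ℕ → Submodule k (H n)} (anti : ∀ i, Fl (i + 1) ≤ Fl i)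
    (mono : ∀ i, P i ≤ P (i + 1)) (V : Submodule k (H n)) (hV : ∀ D, ∀ x ∈ V, (C n).c D x ∈ V)
    (h : Bi K T Fl P V) (i : ℕ) : QK b R K V ≤ GK K T (Fl (i + 1) ⊓ V) ⊔ QK b R K (P i ⊓ V) := by
  have hmono : Monotone P := monotone_nat_of_le_succ mono
  have hanti : Antitone Fl := antitone_nat_of_succ_le anti
  refine le_trans h (iSup_le fun j => ?_)
  rcases le_or_gt j i with hj | hj
  · refine le_trans ?_ le_sup_right
    rw [qk_inf]
    exact inf_le_inf_right _ (inf_le_right.trans (qk_mono K (hmono hj)))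
  · refine le_trans ?_ le_sup_left
    rw [gk_inf, gk_of_stable K T V hV]
    exact inf_le_inf_right _ (inf_le_left.trans (gk_mono K T (hanti hj)))

/-- Proof. `sup_of_bi` and the dimensions. -/
theorem disj_of_bi (T : Tr C mu b R) {n : ℕ} {Fl P : ℕ → Submodule k (H n)} (anti : ∀ i, Fl (i + 1) ≤ Fl i)
    (mono : ∀ i, P i ≤ P (i + 1)) (V : Submodule k (H n)) (hV : ∀ D, ∀ x ∈ V, (C n).c D x ∈ V)
    (dim : ∀ i, Module.finrank k ↥(P i ⊓ V) + Module.finrank k ↥(Fl (i + 1) ⊓ V) = Module.finrank k V)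
    (h : Bi K T Fl P V) (i : ℕ) : QK b R K (P i) ⊓ GK K T (Fl (i + 1)) ⊓ QK b R K V = ⊥ := by
  have h1 : QK b R K (P i) ⊓ GK K T (Fl (i + 1)) ⊓ QK b R K V =
      GK K T (Fl (i + 1) ⊓ V) ⊓ QK b R K (P i ⊓ V) := by
    rw [gk_inf, qk_inf, gk_of_stable K T V hV]
    exact le_antisymm (fun x hx => ⟨⟨hx.1.2, hx.2⟩, hx.1.1, hx.2⟩) fun x hx => ⟨⟨hx.2.1, hx.1.1⟩, hx.1.2⟩
  have h2 := Submodule.finrank_sup_add_finrank_inf_eq (GK K T (Fl (i + 1) ⊓ V)) (QK b R K (P i ⊓ V))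
  rw [finrank_GK, finrank_QK] at h2
  have h3 := Submodule.finrank_mono (sup_of_bi K T anti mono V hV h i)
  rw [finrank_QK] at h3
  have h4 := dim i
  rw [h1, ← Submodule.finrank_eq_zero (R := K)]
  omega

end MPadcTT
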