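import Pool.Agent.Lib.MP_adc574_ag_TB.G0

/-! LEAF G5: the word of a part -/

set_option autoImplicit false

namespace MPadcTT

universe u v w

variable {k : Type u} [Field k] {H : ℕ → Type v} [∀ n, AddCommGroup (H n)] [∀ n, Module k (H n)]
  {C : ∀ n, Cn k (H n)} {mu : ∀ n m, H n →ₗ[k] H m →ₗ[k] H (n + m)} {β : ℕ → Type} [∀ n, Fintype (β n)]
  {b : ∀ n, Module.Basis (β n) k (H n)}

/-- Proof (as `part_word` in TT/D4). `exists_fun` for `F.submoduleOf V`, `P.submoduleOf V` in `V` gives `lam'`, `f'`; `lam i` an extension of `lam' i` to `H n` (`LinearMap.exists_extend`), `f j = f' j`; the word `w` of `Hit`; `dls_res`. Then `κ (T.Ps lam f) = dls (C n) w (Dt lam) f ≠ 0`,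
so `T.Ps lam f ≠ 0`. The dimensions: `(F.submoduleOf V).map V.subtype = F ⊓ V`. -/
theorem exists_word {n : ℕ} (V : Submodule k (H n)) (hV : ∀ D, ∀ x ∈ V, (C n).c D x ∈ V) (F P : Submodule k (H n))
    (hd : Module.finrank k ↥(P ⊓ V) + Module.finrank k ↥(F ⊓ V) = Module.finrank k V)
    (hit : Hit ((C n).res V hV) (F.submoduleOf V) (P.submoduleOf V)) :
    ∃ w : List (Derivation ℤ k k), ∀ (R : Type w) [CommRing R] [Algebra k R] (T : Tr C mu b R), T.Rep w →
      Opp T (F ⊓ V) (P ⊓ V) := by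
  have : FiniteDimensional k (H n) := Module.Finite.of_basis (b n)
  have key : ∀ N : Submodule k (H n), Module.finrank k ↥(N.submoduleOf V) = Module.finrank k ↥(N ⊓ V) := by
    intro N
    have h1 : (N.submoduleOf V).map V.subtype = N ⊓ V := by
      rw [Submodule.submoduleOf, Submodule.map_comap_subtype, inf_comm]
    rw [← h1]
    exact (LinearEquiv.finrank_eq (Submodule.equivMapOfInjective _ (Submodule.injective_subtype _) _))
  have hd' : Module.finrank k ↥(P.submoduleOf V) + Module.finrank k ↥(F.submoduleOf V) = Module.finrank k V := by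
    rw [key, key, hd]
  obtain ⟨lam', f', h1, h2, h3⟩ := exists_fun (F.submoduleOf V) (P.submoduleOf V) hd'
  obtain ⟨w, hw⟩ := hit (Fin _) lam' f' h1 h2 h3 (by rw [Fintype.card_fin])
    (by rw [Fintype.card_fin, ← hd']; exact Nat.add_comm _ _)
  have hext : ∀ i, ∃ g : H n →ₗ[k] k, g.comp V.subtype = lam' i := fun i => LinearMap.exists_extend (lam' i)
  choose lam hlam using hext
  have hl : ∀ i (y : V), lam i (y : H n) = lam' i y := fun i y => LinearMap.congr_fun (hlam i) y
  refine ⟨w, fun R _ _ T hT => ?_⟩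
  obtain ⟨κ, hκ⟩ := hT
  refine ⟨Fin (Module.finrank k ↥(F.submoduleOf V)), inferInstance, inferInstance, lam, fun j => (f' j : H n), ?_, ?_, ?_, ?_⟩
  · intro i x hx
    have h4 := hl i ⟨x, hx.2⟩
    have h5 : lam' i ⟨x, hx.2⟩ = 0 := (h1 ⟨x, hx.2⟩).2 hx.1 i
    rw [h5] at h4
    exact h4
  · intro j
    exact ⟨h3 j, (f' j).2⟩
  · rw [Fintype.card_fin, key]
  · intro hz
    refine hw ?_
    have h4 := hκ n (Fin (Module.finrank k ↥(F.submoduleOf V))) lam fun j => (f' j : H n)
    rw [hz, map_zero, dls_res (C n) V hV] at h4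
    have h5 : (fun y : Fin (Module.finrank k ↥(F.submoduleOf V)) → V => Dt lam fun j => (y j : H n)) = Dt lam' := by
      funext y
      unfold Dt
      congr 1
      ext i j
      exact hl i (y j)
    rw [h5] at h4
    exact h4.symm

end MPadcTT
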