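import Pool.Agent.Lib.MP_adc574_ag_TB.G4
import Pool.Agent.Lib.MP_adc574_ag_TB.G5

/-! LEAF G6: a stable subspace with hits for all steps of the filtrations is bigraded -/

set_option autoImplicit false

namespace MPadcTT

universe u v w

variable {k : Type u} [Field k] {H : ℕ → Type v} [∀ n, AddCommGroup (H n)] [∀ n, Module k (H n)]
  {C : ∀ n, Cn k (H n)} {mu : ∀ n m, H n →ₗ[k] H m →ₗ[k] H (n + m)} {β : ℕ → Type} [∀ n, Fintype (β n)]
  {b : ∀ n, Module.Basis (β n) k (H n)}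

/-- Proof. The list of the words of `exists_word` for `F = Fl n (i + 1)`, `P = P n i`, `i < n`; `sup_of_opp`, `bi_of_sup` with `K = FractionRing R`. -/
theorem sem_part {Fl P : ∀ n, ℕ → Submodule k (H n)} (zero : ∀ n, Fl n 0 = ⊤) (top : ∀ n i, n < i → Fl n i = ⊥)
    (mono : ∀ n i, P n i ≤ P n (i + 1)) {n : ℕ} (V : Submodule k (H n)) (hV : ∀ D, ∀ x ∈ V, (C n).c D x ∈ V)
    (dim : ∀ i, Module.finrank k ↥(P n i ⊓ V) + Module.finrank k ↥(Fl n (i + 1) ⊓ V) = Module.finrank k V)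
    (hit : ∀ i, Hit ((C n).res V hV) ((Fl n (i + 1)).submoduleOf V) ((P n i).submoduleOf V)) :
    Sem C mu b Fl P n V := by
  choose w hw using fun i => exists_word.{u, v, u} (C := C) (mu := mu) (b := b) V hV (Fl n (i + 1)) (P n i) (dim i) (hit i)
  refine ⟨(List.range n).map w, fun R _ _ _ T hT => ?_⟩
  refine bi_of_sup (FractionRing R) T (zero n) (top n) (mono n) V dim fun i hi => ?_
  exact sup_of_opp (FractionRing R) T hV (dim i) (hw i R T (hT _ (List.mem_map.2 ⟨i, List.mem_range.2 hi, rfl⟩)))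

end MPadcTT
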