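import Pool.Agent.Lib.MP_adc574_ag_TB.G2

/-! LEAF G7: sums, products and logarithmic classes -/

set_option autoImplicit false

namespace MPadcTT

universe u v w

variable {k : Type u} [Field k] {H : ℕ → Type v} [∀ n, AddCommGroup (H n)] [∀ n, Module k (H n)]
  {C : ∀ n, Cn k (H n)} {mu : ∀ n m, H n →ₗ[k] H m →ₗ[k] H (n + m)} {β : ℕ → Type} [∀ n, Fintype (β n)]
  {b : ∀ n, Module.Basis (β n) k (H n)}

/-- Proof. The concatenation of the two lists; `QK (U ⊔ V) = QK U ⊔ QK V` (`qk_sup`). -/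
theorem sem_sup {Fl P : ∀ n, ℕ → Submodule k (H n)} {n : ℕ} {U V : Submodule k (H n)} (hU : Sem C mu b Fl P n U)
    (hV : Sem C mu b Fl P n V) : Sem C mu b Fl P n (U ⊔ V) := by
  obtain ⟨S1, h1⟩ := hU
  obtain ⟨S2, h2⟩ := hV
  refine ⟨S1 ++ S2, fun R _ _ _ T hT => ?_⟩
  have a1 : QK b R (FractionRing R) U ≤
      ⨆ j, GK (FractionRing R) T (Fl n j) ⊓ QK b R (FractionRing R) (P n j) ⊓ QK b R (FractionRing R) U :=
    h1 R T fun w hw => hT w (List.mem_append_left _ hw)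
  have a2 : QK b R (FractionRing R) V ≤
      ⨆ j, GK (FractionRing R) T (Fl n j) ⊓ QK b R (FractionRing R) (P n j) ⊓ QK b R (FractionRing R) V :=
    h2 R T fun w hw => hT w (List.mem_append_right _ hw)
  show QK b R (FractionRing R) (U ⊔ V) ≤
      ⨆ j, GK (FractionRing R) T (Fl n j) ⊓ QK b R (FractionRing R) (P n j) ⊓ QK b R (FractionRing R) (U ⊔ V)
  rw [qk_sup]
  refine sup_le (a1.trans (iSup_mono fun j => inf_le_inf_left _ le_sup_left))
    (a2.trans (iSup_mono fun j => inf_le_inf_left _ le_sup_right))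

private theorem G7b_cK_add {R : Type w} [CommRing R] [Algebra k R] (K : Type w) [Field K] [Algebra R K] {n : ℕ}
    (x y : H n) : cK b R K (x + y) = cK b R K x + cK b R K y := by
  funext i
  simp [cK]

private theorem G7b_cK_zero {R : Type w} [CommRing R] [Algebra k R] (K : Type w) [Field K] [Algebra R K] {n : ℕ} :
    cK b R K (0 : H n) = 0 := by
  funext i
  simp [cK]

private theorem G7b_cK_smul {R : Type w} [CommRing R] [Algebra k R] (K : Type w) [Field K] [Algebra R K] {n : ℕ}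
    (c : k) (x : H n) : cK b R K (c • x) = algebraMap R K (algebraMap k R c) • cK b R K x := by
  funext i
  simp [cK]

private theorem G7b_bi {R : Type w} [CommRing R] [IsDomain R] [Algebra k R] (K : Type w) [Field K] [Algebra R K]
    (T : Tr C mu b R) {Fl P : ∀ n, ℕ → Submodule k (H n)}
    (mulF : ∀ n m i j, ∀ x ∈ Fl n i, ∀ y ∈ Fl m j, mu n m x y ∈ Fl (n + m) (i + j))
    (mulP : ∀ n m i j, ∀ x ∈ P n i, ∀ y ∈ P m j, mu n m x y ∈ P (n + m) (i + j))
    {n m : ℕ} {U : Submodule k (H n)} {V : Submodule k (H m)} {W : Submodule k (H (n + m))}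
    (hW : ∀ x ∈ U, ∀ y ∈ V, mu n m x y ∈ W)
    (hU : Bi K T (Fl n) (P n) U) (hV : Bi K T (Fl m) (P m) V) {y : β n → K} {z : β m → K}
    (hy : y ∈ QK b R K U) (hz : z ∈ QK b R K V) :
    muK mu b R K n m y z ∈ ⨆ j, GK K T (Fl (n + m) j) ⊓ QK b R K (P (n + m) j) ⊓ QK b R K W := by
  obtain ⟨M, hM⟩ := exists_muK (mu := mu) (b := b) (R := R) K n m
  rw [← hM]
  have step : ∀ i, ∀ y ∈ GK K T (Fl n i) ⊓ QK b R K (P n i) ⊓ QK b R K U,
      M y z ∈ ⨆ j, GK K T (Fl (n + m) j) ⊓ QK b R K (P (n + m) j) ⊓ QK b R K W := by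
    intro i y hy
    refine Submodule.iSup_induction (fun j => GK K T (Fl m j) ⊓ QK b R K (P m j) ⊓ QK b R K V)
      (motive := fun z => M y z ∈ ⨆ j, GK K T (Fl (n + m) j) ⊓ QK b R K (P (n + m) j) ⊓ QK b R K W) (hV hz) ?_ ?_ ?_
    · intro j z hz
      rw [hM]
      refine le_iSup (fun j => GK K T (Fl (n + m) j) ⊓ QK b R K (P (n + m) j) ⊓ QK b R K W) (i + j) ⟨⟨?_, ?_⟩, ?_⟩
      · exact muK_GK K T (mulF n m i j) hy.1.1 hz.1.1
      · exact muK_QK K (mulP n m i j) hy.1.2 hz.1.2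
      · exact muK_QK K hW hy.2 hz.2
    · rw [map_zero]
      exact Submodule.zero_mem _
    · intro z z' h2 h3
      rw [map_add]
      exact Submodule.add_mem _ h2 h3
  refine Submodule.iSup_induction (fun j => GK K T (Fl n j) ⊓ QK b R K (P n j) ⊓ QK b R K U)
    (motive := fun y => M y z ∈ ⨆ j, GK K T (Fl (n + m) j) ⊓ QK b R K (P (n + m) j) ⊓ QK b R K W) (hU hy) step ?_ ?_
  · rw [map_zero, LinearMap.zero_apply]
    exact Submodule.zero_mem _
  · intro y y' h2 h3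
    rw [map_add, LinearMap.add_apply]
    exact Submodule.add_mem _ h2 h3

/-- Proof. The concatenation of the two lists; `QK` of the span of the products is spanned by the `muK y z`, `y` in `QK U`, `z` in `QK V` (`muK_cK`, `exists_muK`); decompose `y` and `z`: `muK_GK`, `muK_QK`, and `muK y z` is in `QK` of the span. -/
theorem sem_prod {Fl P : ∀ n, ℕ → Submodule k (H n)}
    (mulF : ∀ n m i j, ∀ x ∈ Fl n i, ∀ y ∈ Fl m j, mu n m x y ∈ Fl (n + m) (i + j))
    (mulP : ∀ n m i j, ∀ x ∈ P n i, ∀ y ∈ P m j, mu n m x y ∈ P (n + m) (i + j))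
    {n m : ℕ} {U : Submodule k (H n)} {V : Submodule k (H m)} (hU : Sem C mu b Fl P n U) (hV : Sem C mu b Fl P m V) :
    Sem C mu b Fl P (n + m) (Submodule.span k {z | ∃ x ∈ U, ∃ y ∈ V, z = mu n m x y}) := by
  obtain ⟨S₁, h₁⟩ := hU
  obtain ⟨S₂, h₂⟩ := hV
  refine ⟨S₁ ++ S₂, fun R _ _ _ T hT => ?_⟩
  have hBU := h₁ R T fun w hw => hT w (List.mem_append_left _ hw)
  have hBV := h₂ R T fun w hw => hT w (List.mem_append_right _ hw)
  have hW : ∀ x ∈ U, ∀ y ∈ V, mu n m x y ∈ Submodule.span k {z | ∃ x ∈ U, ∃ y ∈ V, z = mu n m x y} :=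
    fun x hx y hy => Submodule.subset_span ⟨x, hx, y, hy, rfl⟩
  refine Submodule.span_le.2 ?_
  rintro _ ⟨w, hw, rfl⟩
  refine Submodule.span_induction (p := fun w _ => cK b R (FractionRing R) w ∈
    ⨆ j, GK (FractionRing R) T (Fl (n + m) j) ⊓ QK b R (FractionRing R) (P (n + m) j) ⊓
      QK b R (FractionRing R) (Submodule.span k {z | ∃ x ∈ U, ∃ y ∈ V, z = mu n m x y})) ?_ ?_ ?_ ?_ hw
  · rintro _ ⟨x, hx, y, hy, rfl⟩
    rw [← muK_cK (mu := mu) (b := b) (R := R) (FractionRing R) x y]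
    exact G7b_bi (FractionRing R) T mulF mulP hW hBU hBV (Submodule.subset_span ⟨x, hx, rfl⟩)
      (Submodule.subset_span ⟨y, hy, rfl⟩)
  · rw [G7b_cK_zero]
    exact Submodule.zero_mem _
  · intro x y _ _ h2 h3
    rw [G7b_cK_add]
    exact Submodule.add_mem _ h2 h3
  · intro c x _ h2
    rw [G7b_cK_smul]
    exact Submodule.smul_mem _ _ h2

/-- Proof. `span {x}` is stable, so `QK (span {x}) = GK (span {x}) ≤ GK (Fl n j)` (`gk_of_stable`, `gk_mono`), and it is `≤ QK (P n j)`. -/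
theorem sem_log {Fl P : ∀ n, ℕ → Submodule k (H n)} {n : ℕ} (j : ℕ) (x : H n) (hF : x ∈ Fl n j) (hP : x ∈ P n j)
    (hx : ∀ D, (C n).c D x = 0) : Sem C mu b Fl P n (Submodule.span k {x}) := by
  refine ⟨[], fun R _ _ _ T _ => ?_⟩
  have hV : ∀ D, ∀ y ∈ Submodule.span k {x}, (C n).c D y ∈ Submodule.span k {x} := by
    intro D y hy
    obtain ⟨a, rfl⟩ := Submodule.mem_span_singleton.1 hy
    rw [(C n).leib, hx, smul_zero, zero_add]
    exact Submodule.smul_mem _ _ (Submodule.mem_span_singleton_self x)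
  have h1 : Submodule.span k {x} ≤ Fl n j := (Submodule.span_singleton_le_iff_mem x _).2 hF
  have h2 : Submodule.span k {x} ≤ P n j := (Submodule.span_singleton_le_iff_mem x _).2 hP
  have h3 := gk_mono (FractionRing R) T h1
  rw [gk_of_stable (FractionRing R) T _ hV] at h3
  exact le_trans (le_inf (le_inf h3 (qk_mono (FractionRing R) h2)) le_rfl)
    (le_iSup (fun j => GK (FractionRing R) T (Fl n j) ⊓ QK b R (FractionRing R) (P n j) ⊓
      QK b R (FractionRing R) (Submodule.span k {x})) j)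

end MPadcTT
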