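import Mathlib

/-! LEAF G8: orthogonal complements of bigraded subspaces, linear algebra -/

set_option autoImplicit false

namespace MPadcTT

variable {K : Type*} [Field K] {E E' E'' : Type*} [AddCommGroup E] [Module K E] [AddCommGroup E'] [Module K E']
  [AddCommGroup E''] [Module K E'']

private theorem G8a_ext (M : E →ₗ[K] E' →ₗ[K] E'') {G' Q' : ℕ → Submodule K E'} {U' : Submodule K E'}
    (bU' : U' ≤ ⨆ j, G' j ⊓ Q' j ⊓ U') (x : E) (h : ∀ j, ∀ y ∈ G' j ⊓ Q' j ⊓ U', M x y = 0) : ∀ y ∈ U', M x y = 0 := by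
  have h1 : U' ≤ LinearMap.ker (M x) := bU'.trans (iSup_le fun j y hy => LinearMap.mem_ker.2 (h j y hy))
  exact fun y hy => LinearMap.mem_ker.1 (h1 hy)

/-- Proof. `U ≤ A ⊔ B` with `A = ⨆ j ≤ i, G j ⊓ Q j ⊓ U ≤ Q i ⊓ U`, `B = ⨆ j > i, G j ⊓ Q j ⊓ U ≤ G (i + 1) ⊓ U`. Let
`x = a + c + v`. If `x` is in `Q i` then for `y` in `G' j ⊓ Q' j ⊓ U'` the product `M c y = M x y - M a y` is in
`Q'' (i + j) ⊓ G'' (i + j + 1) ⊓ S = ⊥`, so `c = 0`. If `x` is in `G (i + 1)` then `M a y = M x y - M c y` is in the same space,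
so `a = 0`. -/
theorem perp_abs (M : E →ₗ[K] E' →ₗ[K] E'') (G Q : ℕ → Submodule K E) (G' Q' : ℕ → Submodule K E')
    (G'' Q'' : ℕ → Submodule K E'') (mG : ∀ i j, ∀ x ∈ G i, ∀ y ∈ G' j, M x y ∈ G'' (i + j))
    (mQ : ∀ i j, ∀ x ∈ Q i, ∀ y ∈ Q' j, M x y ∈ Q'' (i + j)) (aG : Antitone G) (aQ : Monotone Q)
    (U V : Submodule K E) (U' : Submodule K E') (S : Submodule K E'') (hS : ∀ e, Q'' e ⊓ G'' (e + 1) ⊓ S = ⊥)
    (hUS : ∀ x ∈ U, ∀ y ∈ U', M x y ∈ S) (hV : ∀ x ∈ V, ∀ y ∈ U', M x y = 0)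
    (hU : ∀ x ∈ U, (∀ y ∈ U', M x y = 0) → x = 0) (bU : U ≤ ⨆ j, G j ⊓ Q j ⊓ U) (bU' : U' ≤ ⨆ j, G' j ⊓ Q' j ⊓ U') (i : ℕ) :
    Q i ⊓ (U ⊔ V) ≤ (Q i ⊓ U) ⊔ (Q i ⊓ V) ∧ G (i + 1) ⊓ (U ⊔ V) ≤ (G (i + 1) ⊓ U) ⊔ (G (i + 1) ⊓ V) ∧
      Q i ⊓ U ⊓ (G (i + 1) ⊓ U) = ⊥ ∧ U ≤ (Q i ⊓ U) ⊔ (G (i + 1) ⊓ U) := by
  have hzero : ∀ x ∈ U, (∀ j, ∀ y ∈ G' j ⊓ Q' j ⊓ U', M x y ∈ Q'' (i + j)) →
      (∀ j, ∀ y ∈ G' j ⊓ Q' j ⊓ U', M x y ∈ G'' (i + 1 + j)) → x = 0 := by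
    intro x hx h1 h2
    refine hU x hx (G8a_ext M bU' x fun j y hy => ?_)
    have h3 := h2 j y hy
    rw [show i + 1 + j = i + j + 1 by omega] at h3
    have h4 : M x y ∈ Q'' (i + j) ⊓ G'' (i + j + 1) ⊓ S := ⟨⟨h1 j y hy, h3⟩, hUS x hx y hy.2⟩
    rw [hS] at h4
    exact (Submodule.mem_bot K).1 h4
  have hQ0 : ∀ x ∈ Q i, ∀ j, ∀ y ∈ G' j ⊓ Q' j ⊓ U', M x y ∈ Q'' (i + j) := fun x hx j y hy => mQ i j x hx y hy.1.2
  have hG0 : ∀ x ∈ G (i + 1), ∀ j, ∀ y ∈ G' j ⊓ Q' j ⊓ U', M x y ∈ G'' (i + 1 + j) := fun x hx j y hy =>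
    mG (i + 1) j x hx y hy.1.1
  have hdec : U ≤ (Q i ⊓ U) ⊔ (G (i + 1) ⊓ U) := by
    refine bU.trans (iSup_le fun j x hx => ?_)
    rcases Nat.lt_or_ge i j with h1 | h1
    · exact Submodule.mem_sup_right ⟨aG h1 hx.1.1, hx.2⟩
    · exact Submodule.mem_sup_left ⟨aQ h1 hx.1.2, hx.2⟩
  refine ⟨?_, ?_, ?_, hdec⟩
  · rintro x ⟨hx, hx'⟩
    obtain ⟨u, hu, v, hv, rfl⟩ := Submodule.mem_sup.1 hx'
    obtain ⟨a, ha, c, hc, rfl⟩ := Submodule.mem_sup.1 (hdec hu)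
    have h0 : c = 0 := by
      refine hzero c hc.2 (fun j y hy => ?_) (hG0 c hc.1)
      have h2 := hQ0 _ hx j y hy
      rw [map_add, map_add, LinearMap.add_apply, LinearMap.add_apply, hV v hv y hy.2, add_zero] at h2
      exact (Submodule.add_mem_iff_right _ (hQ0 a ha.1 j y hy)).1 h2
    subst h0
    rw [add_zero] at hx ⊢
    refine Submodule.add_mem_sup ha ⟨?_, hv⟩
    have h3 := Submodule.sub_mem _ hx ha.1
    rwa [add_sub_cancel_left] at h3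
  · rintro x ⟨hx, hx'⟩
    obtain ⟨u, hu, v, hv, rfl⟩ := Submodule.mem_sup.1 hx'
    obtain ⟨a, ha, c, hc, rfl⟩ := Submodule.mem_sup.1 (hdec hu)
    have h0 : a = 0 := by
      refine hzero a ha.2 (hQ0 a ha.1) fun j y hy => ?_
      have h2 := hG0 _ hx j y hy
      rw [map_add, map_add, LinearMap.add_apply, LinearMap.add_apply, hV v hv y hy.2, add_zero] at h2
      exact (Submodule.add_mem_iff_left _ (hG0 c hc.1 j y hy)).1 h2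
    subst h0
    rw [zero_add] at hx ⊢
    refine Submodule.add_mem_sup hc ⟨?_, hv⟩
    have h3 := Submodule.sub_mem _ hx hc.1
    rwa [add_sub_cancel_left] at h3
  · rw [eq_bot_iff]
    rintro x ⟨hx, hx'⟩
    exact (Submodule.mem_bot K).2 (hzero x hx.2 (hQ0 x hx.1) (hG0 x hx'.1))

/-- Proof. `U ⊓ V = ⊥` (`hV`, `hU`), so the sums in `perp_abs` are direct; count dimensions
(`Submodule.finrank_sup_add_finrank_inf_eq`). -/
theorem perp_fin [FiniteDimensional K E] (M : E →ₗ[K] E' →ₗ[K] E'') (G Q : ℕ → Submodule K E) (G' Q' : ℕ → Submodule K E')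
    (G'' Q'' : ℕ → Submodule K E'') (mG : ∀ i j, ∀ x ∈ G i, ∀ y ∈ G' j, M x y ∈ G'' (i + j))
    (mQ : ∀ i j, ∀ x ∈ Q i, ∀ y ∈ Q' j, M x y ∈ Q'' (i + j)) (aG : Antitone G) (aQ : Monotone Q)
    (U V : Submodule K E) (U' : Submodule K E') (S : Submodule K E'') (hS : ∀ e, Q'' e ⊓ G'' (e + 1) ⊓ S = ⊥)
    (hUS : ∀ x ∈ U, ∀ y ∈ U', M x y ∈ S) (hV : ∀ x ∈ V, ∀ y ∈ U', M x y = 0)
    (hU : ∀ x ∈ U, (∀ y ∈ U', M x y = 0) → x = 0) (bU : U ≤ ⨆ j, G j ⊓ Q j ⊓ U) (bU' : U' ≤ ⨆ j, G' j ⊓ Q' j ⊓ U') (i : ℕ)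
    (hd : Module.finrank K ↥(Q i ⊓ (U ⊔ V)) + Module.finrank K ↥(G (i + 1) ⊓ (U ⊔ V)) = Module.finrank K ↥(U ⊔ V)) :
    Module.finrank K ↥(Q i ⊓ V) + Module.finrank K ↥(G (i + 1) ⊓ V) = Module.finrank K V := by
  obtain ⟨h1, h2, h3, h4⟩ := perp_abs M G Q G' Q' G'' Q'' mG mQ aG aQ U V U' S hS hUS hV hU bU bU' i
  have hUV : U ⊓ V = ⊥ := by
    rw [eq_bot_iff]
    intro x hx
    rw [Submodule.mem_bot]
    exact hU x hx.1 (hV x hx.2)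
  have e : ∀ A : Submodule K E, A ⊓ (U ⊔ V) ≤ (A ⊓ U) ⊔ (A ⊓ V) →
      Module.finrank K ↥(A ⊓ (U ⊔ V)) = Module.finrank K ↥(A ⊓ U) + Module.finrank K ↥(A ⊓ V) := by
    intro A hA
    have e1 : A ⊓ (U ⊔ V) = (A ⊓ U) ⊔ (A ⊓ V) :=
      le_antisymm hA (sup_le (inf_le_inf_left _ le_sup_left) (inf_le_inf_left _ le_sup_right))
    have e2 := Submodule.finrank_sup_add_finrank_inf_eq (A ⊓ U) (A ⊓ V)
    have e3 : (A ⊓ U) ⊓ (A ⊓ V) = ⊥ := by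
      rw [eq_bot_iff, ← hUV]
      exact inf_le_inf inf_le_right inf_le_right
    rw [e3, finrank_bot, add_zero] at e2
    rw [e1, e2]
  have e4 := e _ h1
  have e5 := e _ h2
  have e6 := Submodule.finrank_sup_add_finrank_inf_eq (Q i ⊓ U) (G (i + 1) ⊓ U)
  have e7 : (Q i ⊓ U) ⊔ (G (i + 1) ⊓ U) = U := le_antisymm (sup_le inf_le_right inf_le_right) h4
  rw [h3, finrank_bot, add_zero, e7] at e6
  have e8 := Submodule.finrank_sup_add_finrank_inf_eq U V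
  rw [hUV, finrank_bot, add_zero] at e8
  omega

private theorem G8_indep {G'' Q'' : ℕ → Submodule K E''} (aQ'' : Monotone Q'') {S : Submodule K E''}
    (hS : ∀ e, Q'' e ⊓ G'' (e + 1) ⊓ S = ⊥) (l : ℕ) (z : ℕ → E'') (s : Finset ℕ) :
    (∀ j ∈ s, z j ∈ G'' (j + l) ⊓ Q'' (j + l) ⊓ S) → ∑ j ∈ s, z j = 0 → ∀ j ∈ s, z j = 0 := by
  classical
  induction s using Finset.induction_on_max with
  | empty => intro _ _ j hj; exact absurd hj (Finset.notMem_empty j)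
  | insert a s ha ih =>
    intro hz h0
    have hna : a ∉ s := fun h => lt_irrefl _ (ha a h)
    rw [Finset.sum_insert hna] at h0
    have hza : z a = 0 := by
      rcases s.eq_empty_or_nonempty with rfl | ⟨c, hc⟩
      · rw [Finset.sum_empty, add_zero] at h0
        exact h0
      · have hca := ha c hc
        obtain ⟨e, he⟩ : ∃ e, a + l = e + 1 := ⟨a + l - 1, by omega⟩
        have h1 := hz a (Finset.mem_insert_self a s)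
        rw [he] at h1
        have h2 : ∑ j ∈ s, z j ∈ Q'' e := Submodule.sum_mem _ fun j hj =>
          aQ'' (show j + l ≤ e by have := ha j hj; omega) (hz j (Finset.mem_insert_of_mem hj)).1.2
        have h3 : z a ∈ Q'' e := by
          rw [eq_neg_of_add_eq_zero_left h0]
          exact Submodule.neg_mem _ h2
        have h4 : z a ∈ Q'' e ⊓ G'' (e + 1) ⊓ S := ⟨⟨h3, h1.1.1⟩, h1.2⟩
        rw [hS] at h4
        exact (Submodule.mem_bot K).1 h4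
    rw [hza, zero_add] at h0
    intro j hj
    rcases Finset.mem_insert.1 hj with rfl | hj
    · exact hza
    · exact ih (fun i hi => hz i (Finset.mem_insert_of_mem hi)) h0 j hj

/-- Proof. Let `x = ∑ x_j`, `x_j` in `G j ⊓ Q j ⊓ U`. For `y` in `G' l ⊓ Q' l ⊓ U'` the terms of `0 = ∑ M x_j y` are in the
independent spaces `G'' (j + l) ⊓ Q'' (j + l) ⊓ S`, so all `M x_j y` are `0`. -/
theorem ker_abs (M : E →ₗ[K] E' →ₗ[K] E'') (G Q : ℕ → Submodule K E) (G' Q' : ℕ → Submodule K E')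
    (G'' Q'' : ℕ → Submodule K E'') (mG : ∀ i j, ∀ x ∈ G i, ∀ y ∈ G' j, M x y ∈ G'' (i + j))
    (mQ : ∀ i j, ∀ x ∈ Q i, ∀ y ∈ Q' j, M x y ∈ Q'' (i + j)) (aQ'' : Monotone Q'')
    (U V : Submodule K E) (U' : Submodule K E') (S : Submodule K E'') (hS : ∀ e, Q'' e ⊓ G'' (e + 1) ⊓ S = ⊥)
    (hUS : ∀ x ∈ U, ∀ y ∈ U', M x y ∈ S) (hVU : ∀ x, x ∈ V ↔ x ∈ U ∧ ∀ y ∈ U', M x y = 0)
    (bU : U ≤ ⨆ j, G j ⊓ Q j ⊓ U) (bU' : U' ≤ ⨆ j, G' j ⊓ Q' j ⊓ U') : V ≤ ⨆ j, G j ⊓ Q j ⊓ V := by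
  intro x hx
  obtain ⟨hxU, hx0⟩ := (hVU x).1 hx
  obtain ⟨f, hf, hsum⟩ := (Submodule.mem_iSup_iff_exists_finsupp _ x).1 (bU hxU)
  have key : ∀ j ∈ f.support, f j ∈ V := by
    intro j hj
    refine (hVU _).2 ⟨(hf j).2, G8a_ext M bU' (f j) fun l y hy => ?_⟩
    refine G8_indep aQ'' hS l (fun j => M (f j) y) f.support (fun i _ => ?_) ?_ j hj
    · exact ⟨⟨mG i l _ (hf i).1.1 y hy.1.1, mQ i l _ (hf i).1.2 y hy.1.2⟩, hUS _ (hf i).2 y hy.2⟩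
    · have h1 := hx0 y hy.2
      rw [← hsum, Finsupp.sum, map_sum, LinearMap.sum_apply] at h1
      exact h1
  rw [← hsum]
  exact Submodule.sum_mem _ fun j hj => Submodule.mem_iSup_of_mem j ⟨(hf j).1, key j hj⟩

end MPadcTT
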