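import Pool.Agent.Lib.MP_adc574_ag_TB.G4
import Pool.Agent.Lib.MP_adc574_ag_TB.G8
import Pool.Agent.Lib.MP_adc574_ag_TT.T8

/-! LEAF G9: the dimensions in an orthogonal complement -/

set_option autoImplicit false

namespace MPadcTT

universe u v w

private theorem G9a_muK {k : Type u} [Field k] {H : ℕ → Type v} [∀ n, AddCommGroup (H n)] [∀ n, Module k (H n)]
    {mu : ∀ n m, H n →ₗ[k] H m →ₗ[k] H (n + m)} {β : ℕ → Type} [∀ n, Fintype (β n)]
    {b : ∀ n, Module.Basis (β n) k (H n)} {R : Type w} [CommRing R] [Algebra k R] (K : Type w) [Field K]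
    [Algebra R K] {n m : ℕ} (x : β n → K) (y : H m) (c : β (n + m)) :
    muK mu b R K n m x (cK b R K y) c =
      ∑ a, algebraMap R K (algebraMap k R ((b (n + m)).repr (mu n m (b n a) y) c)) * x a := by
  unfold muK
  refine Finset.sum_congr rfl fun a _ => ?_
  have e1 : (b (n + m)).repr (mu n m (b n a) y) c =
      ∑ j, (b m).repr y j * (b (n + m)).repr (mu n m (b n a) (b m j)) c := by
    conv_lhs => rw [← (b m).sum_repr y]
    rw [map_sum, map_sum, Finsupp.finsetSum_apply]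
    refine Finset.sum_congr rfl fun j _ => ?_
    rw [map_smul, map_smul, Finsupp.smul_apply, smul_eq_mul]
  rw [e1, map_sum, map_sum, Finset.sum_mul]
  refine Finset.sum_congr rfl fun j _ => ?_
  rw [map_mul, map_mul]
  change _ * (x a * algebraMap R K (algebraMap k R ((b m).repr y j))) = _
  ring

private theorem G9a_ann {k : Type u} [Field k] {V : Type v} [AddCommGroup V] [Module k V] (E : Submodule k V) (x : V) :
    x ∈ E ↔ ∀ φ : {φ : V →ₗ[k] k // ∀ z ∈ E, φ z = 0}, φ.1 x = 0 := by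
  constructor
  · intro hx φ
    exact φ.2 x hx
  · intro h
    by_contra hx
    obtain ⟨f, hf, hle⟩ := Submodule.exists_le_ker_of_notMem hx
    exact hf (h ⟨f, fun z hz => LinearMap.mem_ker.1 (hle hz)⟩)

section

variable {k : Type u} [Field k] {H : ℕ → Type v} [∀ n, AddCommGroup (H n)] [∀ n, Module k (H n)]
  {C : ∀ n, Cn k (H n)} {mu : ∀ n m, H n →ₗ[k] H m →ₗ[k] H (n + m)} {β : ℕ → Type} [∀ n, Fintype (β n)]
  {b : ∀ n, Module.Basis (β n) k (H n)} {R : Type w} [CommRing R] [IsDomain R] [Algebra k R] (K : Type w) [Field K]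
  [Algebra R K] [IsFractionRing R K]

/-- Orthogonality over `K`: `QK V` is the common kernel of the functionals `x ↦ (b (n + m)).coord c (mu n m x y)`, `y` in
`U'`, and of functionals with the common kernel `E` (`mem_qk`). -/
theorem mem_perp {n m : ℕ} {E V : Submodule k (H n)} {U' : Submodule k (H m)}
    (hVE : ∀ x, x ∈ V ↔ x ∈ E ∧ ∀ y ∈ U', mu n m x y = 0) (x : β n → K) :
    x ∈ QK b R K V ↔ x ∈ QK b R K E ∧ ∀ y ∈ QK b R K U', muK mu b R K n m x y = 0 := by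
  constructor
  · intro hx
    refine ⟨qk_mono K (fun z hz => ((hVE z).1 hz).1) hx, fun y hy => ?_⟩
    have h1 := muK_QK (mu := mu) (b := b) (R := R) K (P := V) (P' := U') (P'' := ⊥)
      (fun x hx y hy => (Submodule.mem_bot k).2 (((hVE x).1 hx).2 y hy)) hx hy
    rw [qk_bot] at h1
    exact (Submodule.mem_bot K).1 h1
  · rintro ⟨hx, h⟩
    have hP : ∀ z, z ∈ V ↔ ∀ i : {φ : H n →ₗ[k] k // ∀ z ∈ E, φ z = 0} ⊕ (U' × β (n + m)),
        (Sum.elim (fun φ => φ.1) (fun p => ((b (n + m)).coord p.2).comp ((mu n m).flip p.1)) i :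
          H n →ₗ[k] k) z = 0 := by
      intro z
      rw [hVE z, G9a_ann E z]
      constructor
      · rintro ⟨h1, h2⟩ (φ | ⟨y, c⟩)
        · exact h1 φ
        · show (b (n + m)).repr (mu n m z y) c = 0
          rw [h2 y y.2, map_zero]
          rfl
      · intro h1
        refine ⟨fun φ => h1 (Sum.inl φ), fun y hy => ?_⟩
        apply (b (n + m)).repr.injective
        rw [map_zero]
        ext c
        exact h1 (Sum.inr (⟨y, hy⟩, c))
    rw [mem_qk K _ V hP x]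
    rintro (φ | ⟨y, c⟩)
    · exact (mem_qk K (fun φ : {φ : H n →ₗ[k] k // ∀ z ∈ E, φ z = 0} => φ.1) E (fun z => G9a_ann E z) x).1 hx φ
    · have h2 := h (cK b R K (y : H m)) (Submodule.subset_span ⟨y, y.2, rfl⟩)
      have h3 := congrFun h2 c
      rw [G9a_muK] at h3
      exact h3

/-- Proof. `perp_fin` over `K`, with `M` from `exists_muK`, `G = GK (Fl n ·)`, `Q = QK (P n ·)` etc., the subspaces `QK U`,
`QK V`, `QK U'`, `QK S`. `disj_of_bi` for `S`; `mem_perp`; an element `x` of `QK U` with `muK x y = 0` for all `y` in `QK U'`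
is in `QK U ⊓ QK V = QK (U ⊓ V) = ⊥`. `GK (Fl (i + 1) ⊓ V) = GK (Fl (i + 1)) ⊓ QK V` and the same for `E` (`gk_inf`,
`gk_of_stable`), `qk_inf`, `finrank_GK`, `finrank_QK`, `qk_sup`. -/
theorem perp_dim (T : Tr C mu b R) {Fl P : ∀ n, ℕ → Submodule k (H n)} (anti : ∀ n i, Fl n (i + 1) ≤ Fl n i)
    (mulF : ∀ n m i j, ∀ x ∈ Fl n i, ∀ y ∈ Fl m j, mu n m x y ∈ Fl (n + m) (i + j)) (mono : ∀ n i, P n i ≤ P n (i + 1))
    (mulP : ∀ n m i j, ∀ x ∈ P n i, ∀ y ∈ P m j, mu n m x y ∈ P (n + m) (i + j)) {n m : ℕ}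
    {E U V : Submodule k (H n)} {U' : Submodule k (H m)} {S : Submodule k (H (n + m))}
    (hE : ∀ D, ∀ x ∈ E, (C n).c D x ∈ E) (hV : ∀ D, ∀ x ∈ V, (C n).c D x ∈ V) (hS : ∀ D, ∀ x ∈ S, (C (n + m)).c D x ∈ S)
    (hUS : ∀ x ∈ U, ∀ y ∈ U', mu n m x y ∈ S)
    (hVE : ∀ x, x ∈ V ↔ x ∈ E ∧ ∀ y ∈ U', mu n m x y = 0) (hUV : U ⊓ V = ⊥) (hs : U ⊔ V = E)
    (dimE : ∀ i, Module.finrank k ↥(P n i ⊓ E) + Module.finrank k ↥(Fl n (i + 1) ⊓ E) = Module.finrank k E)
    (dimS : ∀ i, Module.finrank k ↥(P (n + m) i ⊓ S) + Module.finrank k ↥(Fl (n + m) (i + 1) ⊓ S) = Module.finrank k S)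
    (bU : Bi K T (Fl n) (P n) U) (bU' : Bi K T (Fl m) (P m) U') (bS : Bi K T (Fl (n + m)) (P (n + m)) S) (i : ℕ) :
    Module.finrank k ↥(P n i ⊓ V) + Module.finrank k ↥(Fl n (i + 1) ⊓ V) = Module.finrank k V := by
  obtain ⟨M, hM⟩ := exists_muK (mu := mu) (b := b) (R := R) K n m
  have hUE : U ≤ E := hs ▸ le_sup_left
  have hsup : QK b R K U ⊔ QK b R K V = QK b R K E := by rw [← qk_sup, hs]
  have key : ∀ i, Module.finrank K ↥(QK b R K (P n i) ⊓ QK b R K E) = Module.finrank k ↥(P n i ⊓ E) := fun i => by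
    rw [← qk_inf, finrank_QK]
  have key2 : ∀ i, Module.finrank K ↥(GK K T (Fl n i) ⊓ QK b R K E) = Module.finrank k ↥(Fl n i ⊓ E) := fun i => by
    rw [← gk_of_stable K T E hE, ← gk_inf, finrank_GK]
  have h1 := perp_fin M (fun i => GK K T (Fl n i)) (fun i => QK b R K (P n i)) (fun i => GK K T (Fl m i))
    (fun i => QK b R K (P m i)) (fun i => GK K T (Fl (n + m) i)) (fun i => QK b R K (P (n + m) i))
    (fun i j x hx y hy => by
      rw [hM]
      exact muK_GK K T (mulF n m i j) hx hy)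
    (fun i j x hx y hy => by
      rw [hM]
      exact muK_QK K (mulP n m i j) hx hy)
    (antitone_nat_of_succ_le fun i => gk_mono K T (anti n i))
    (monotone_nat_of_le_succ fun i => qk_mono K (mono n i)) (QK b R K U) (QK b R K V) (QK b R K U') (QK b R K S)
    (fun e => disj_of_bi K T (anti (n + m)) (mono (n + m)) S hS dimS bS e)
    (fun x hx y hy => by
      rw [hM]
      exact muK_QK K hUS hx hy)
    (fun x hx y hy => by
      rw [hM]
      exact ((mem_perp K hVE x).1 hx).2 y hy)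
    (fun x hx h => by
      have h2 : x ∈ QK b R K U ⊓ QK b R K V := ⟨hx, (mem_perp K hVE x).2 ⟨qk_mono K hUE hx, fun y hy => by
        rw [← hM]
        exact h y hy⟩⟩
      rw [← qk_inf, hUV, qk_bot] at h2
      exact (Submodule.mem_bot K).1 h2) bU bU' i (by
      rw [hsup, key, key2, finrank_QK]
      exact dimE i)
  rw [← finrank_QK (b := b) (R := R) K V, ← h1]
  congr 1
  · show _ = Module.finrank K ↥(QK b R K (P n i) ⊓ QK b R K V)
    rw [← qk_inf, finrank_QK]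
  · show _ = Module.finrank K ↥(GK K T (Fl n (i + 1)) ⊓ QK b R K V)
    rw [← gk_of_stable K T V hV, ← gk_inf, finrank_GK]

/-- Proof. `ker_abs` over `K`, as in `perp_dim`. -/
theorem ker_bi (T : Tr C mu b R) {Fl P : ∀ n, ℕ → Submodule k (H n)} (anti : ∀ n i, Fl n (i + 1) ≤ Fl n i)
    (mulF : ∀ n m i j, ∀ x ∈ Fl n i, ∀ y ∈ Fl m j, mu n m x y ∈ Fl (n + m) (i + j)) (mono : ∀ n i, P n i ≤ P n (i + 1))
    (mulP : ∀ n m i j, ∀ x ∈ P n i, ∀ y ∈ P m j, mu n m x y ∈ P (n + m) (i + j)) {n m : ℕ}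
    {U V : Submodule k (H n)} {U' : Submodule k (H m)} {S : Submodule k (H (n + m))}
    (hS : ∀ D, ∀ x ∈ S, (C (n + m)).c D x ∈ S) (hUS : ∀ x ∈ U, ∀ y ∈ U', mu n m x y ∈ S)
    (hVU : ∀ x, x ∈ V ↔ x ∈ U ∧ ∀ y ∈ U', mu n m x y = 0)
    (dimS : ∀ i, Module.finrank k ↥(P (n + m) i ⊓ S) + Module.finrank k ↥(Fl (n + m) (i + 1) ⊓ S) = Module.finrank k S)
    (bU : Bi K T (Fl n) (P n) U) (bU' : Bi K T (Fl m) (P m) U') (bS : Bi K T (Fl (n + m)) (P (n + m)) S) :
    Bi K T (Fl n) (P n) V := by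
  obtain ⟨M, hM⟩ := exists_muK (mu := mu) (b := b) (R := R) K n m
  exact ker_abs M (fun i => GK K T (Fl n i)) (fun i => QK b R K (P n i)) (fun i => GK K T (Fl m i))
    (fun i => QK b R K (P m i)) (fun i => GK K T (Fl (n + m) i)) (fun i => QK b R K (P (n + m) i))
    (fun i j x hx y hy => by
      rw [hM]
      exact muK_GK K T (mulF n m i j) hx hy)
    (fun i j x hx y hy => by
      rw [hM]
      exact muK_QK K (mulP n m i j) hx hy)
    (monotone_nat_of_le_succ fun i => qk_mono K (mono (n + m) i)) (QK b R K U) (QK b R K V) (QK b R K U') (QK b R K S)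
    (fun e => disj_of_bi K T (anti (n + m)) (mono (n + m)) S hS dimS bS e)
    (fun x hx y hy => by
      rw [hM]
      exact muK_QK K hUS hx hy)
    (fun x => by
      rw [mem_perp K hVU x]
      refine and_congr Iff.rfl (forall_congr' fun y => imp_congr Iff.rfl ?_)
      rw [hM]) bU bU'

end

/-- Proof. `exists_tr` for the concatenation of the three lists, `perp_dim` with `K = FractionRing R`. -/
theorem sem_dim {k : Type u} [Field k] [CharZero k] {H : ℕ → Type v} [∀ n, AddCommGroup (H n)] [∀ n, Module k (H n)]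
    {C : ∀ n, Cn k (H n)} {mu : ∀ n m, H n →ₗ[k] H m →ₗ[k] H (n + m)} {β : ℕ → Type} [∀ n, Fintype (β n)]
    {b : ∀ n, Module.Basis (β n) k (H n)}
    (hmu : ∀ D n m x y, (C (n + m)).c D (mu n m x y) = mu n m ((C n).c D x) y + mu n m x ((C m).c D y))
    {Fl P : ∀ n, ℕ → Submodule k (H n)} (anti : ∀ n i, Fl n (i + 1) ≤ Fl n i)
    (mulF : ∀ n m i j, ∀ x ∈ Fl n i, ∀ y ∈ Fl m j, mu n m x y ∈ Fl (n + m) (i + j)) (mono : ∀ n i, P n i ≤ P n (i + 1))
    (mulP : ∀ n m i j, ∀ x ∈ P n i, ∀ y ∈ P m j, mu n m x y ∈ P (n + m) (i + j)) {n m : ℕ}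
    {E U V : Submodule k (H n)} {U' : Submodule k (H m)} {S : Submodule k (H (n + m))}
    (hE : ∀ D, ∀ x ∈ E, (C n).c D x ∈ E) (hV : ∀ D, ∀ x ∈ V, (C n).c D x ∈ V) (hS : ∀ D, ∀ x ∈ S, (C (n + m)).c D x ∈ S)
    (hUS : ∀ x ∈ U, ∀ y ∈ U', mu n m x y ∈ S)
    (hVE : ∀ x, x ∈ V ↔ x ∈ E ∧ ∀ y ∈ U', mu n m x y = 0) (hUV : U ⊓ V = ⊥) (hs : U ⊔ V = E)
    (dimE : ∀ i, Module.finrank k ↥(P n i ⊓ E) + Module.finrank k ↥(Fl n (i + 1) ⊓ E) = Module.finrank k E)
    (dimS : ∀ i, Module.finrank k ↥(P (n + m) i ⊓ S) + Module.finrank k ↥(Fl (n + m) (i + 1) ⊓ S) = Module.finrank k S)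
    (bU : Sem C mu b Fl P n U) (bU' : Sem C mu b Fl P m U') (bS : Sem C mu b Fl P (n + m) S) (i : ℕ) :
    Module.finrank k ↥(P n i ⊓ V) + Module.finrank k ↥(Fl n (i + 1) ⊓ V) = Module.finrank k V := by
  obtain ⟨L, hL⟩ := bU
  obtain ⟨L', hL'⟩ := bU'
  obtain ⟨L'', hL''⟩ := bS
  obtain ⟨R, i1, i2, i3, T, h1, h2⟩ := exists_tr (b := b) hmu (L ++ (L' ++ L''))
  exact perp_dim (FractionRing R) T anti mulF mono mulP hE hV hS hUS hVE hUV hs dimE dimS
    (hL R T fun w hw => h2 w (List.mem_append_left _ hw))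
    (hL' R T fun w hw => h2 w (List.mem_append_right _ (List.mem_append_left _ hw)))
    (hL'' R T fun w hw => h2 w (List.mem_append_right _ (List.mem_append_right _ hw))) i

/-- Proof. The concatenation of the three lists, `ker_bi` with `K = FractionRing R`. -/
theorem sem_ker {k : Type u} [Field k] {H : ℕ → Type v} [∀ n, AddCommGroup (H n)] [∀ n, Module k (H n)]
    {C : ∀ n, Cn k (H n)} {mu : ∀ n m, H n →ₗ[k] H m →ₗ[k] H (n + m)} {β : ℕ → Type} [∀ n, Fintype (β n)]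
    {b : ∀ n, Module.Basis (β n) k (H n)}
    {Fl P : ∀ n, ℕ → Submodule k (H n)} (anti : ∀ n i, Fl n (i + 1) ≤ Fl n i)
    (mulF : ∀ n m i j, ∀ x ∈ Fl n i, ∀ y ∈ Fl m j, mu n m x y ∈ Fl (n + m) (i + j)) (mono : ∀ n i, P n i ≤ P n (i + 1))
    (mulP : ∀ n m i j, ∀ x ∈ P n i, ∀ y ∈ P m j, mu n m x y ∈ P (n + m) (i + j)) {n m : ℕ}
    {U V : Submodule k (H n)} {U' : Submodule k (H m)} {S : Submodule k (H (n + m))}
    (hS : ∀ D, ∀ x ∈ S, (C (n + m)).c D x ∈ S) (hUS : ∀ x ∈ U, ∀ y ∈ U', mu n m x y ∈ S)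
    (hVU : ∀ x, x ∈ V ↔ x ∈ U ∧ ∀ y ∈ U', mu n m x y = 0)
    (dimS : ∀ i, Module.finrank k ↥(P (n + m) i ⊓ S) + Module.finrank k ↥(Fl (n + m) (i + 1) ⊓ S) = Module.finrank k S)
    (bU : Sem C mu b Fl P n U) (bU' : Sem C mu b Fl P m U') (bS : Sem C mu b Fl P (n + m) S) :
    Sem C mu b Fl P n V := by
  obtain ⟨L, hL⟩ := bU
  obtain ⟨L', hL'⟩ := bU'
  obtain ⟨L'', hL''⟩ := bS
  refine ⟨L ++ (L' ++ L''), fun R _ _ _ T h2 => ?_⟩
  exact ker_bi (FractionRing R) T anti mulF mono mulP hS hUS hVU dimS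
    (hL R T fun w hw => h2 w (List.mem_append_left _ hw))
    (hL' R T fun w hw => h2 w (List.mem_append_right _ (List.mem_append_left _ hw)))
    (hL'' R T fun w hw => h2 w (List.mem_append_right _ (List.mem_append_right _ hw)))

end MPadcTT
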