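import Pool.Agent.Lib.MP_adc574_ag_GP.BrX
import Pool.Agent.Lib.MP_adc574_ag_GP.BrT

/-! LEAF H4: the parts span -/

set_option autoImplicit false

namespace MPadcTT

open OrdRed MPadcGP

universe u v w

/-- Proof. `proj I` and `part I w` are `cvr I f` and `partF w f` for the restrictions `f`; as in `finrank_part` (GP/BrX) replace `f` by `tr I`; `partF_tr` and `sum_pC`, `pC_mem` (GP/BrT; `HC W m μ` is the image of `W.HW m μ`). -/
theorem iSup_part {k : Type u} [Field k] {n : ℕ} {I : Ideal (MvPolynomial (Fin n) k)} (hI : Homogeneous I) {M : Type}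
    [AddCommGroup M] [Finite M] (w : Fin n → M) (hw : WeightHomogeneous I w) (m : ℕ) :
    ⨆ μ, part I w m μ = ⊤ := by
  classical
  let _ : Fintype M := Fintype.ofFinite M
  have hI' : IsHomog I := hI
  have hw' : IsWHomog w I := hw
  have h1 : ∀ f g : ∀ J K : Finset (Fin n), J ⊆ K → (chart I J →ₐ[k] chart I K), f = g →
      (⨆ μ, partF w g m μ = ⊤) → ⨆ μ, partF w f m μ = ⊤ := by
    rintro f g rfl hf
    exact hf
  have h2 : ⨆ μ, (partF w (fun _ _ h => tr I h) m μ : Submodule k ((cov (prC I)).DR m)) = ⊤ := by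
    rw [eq_top_iff]
    intro x _
    rw [← sum_pC (grP hI' hw') m x]
    refine Submodule.sum_mem _ fun μ _ => Submodule.mem_iSup_of_mem μ ?_
    rw [partF_tr hI' hw' m μ]
    exact pC_mem (grP hI' hw') m μ x
  exact h1 _ _ (funext fun J => funext fun K => funext fun h => restriction_eq I h) h2

end MPadcTT
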