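import Pool.Agent.Lib.MP_adc574_ag_TT.V1

/-! LEAF P2: `F` is a line which generates `V` -/

set_option autoImplicit false

namespace MPadcTT

universe u v w

variable {k : Type u} [Field k] {V : Type v} [AddCommGroup V] [Module k V] [FiniteDimensional k V]

private def P2b_it (C : Cn k V) : List (Derivation ℤ k k) → V → V
  | [], x => x
  | D :: u, x => P2b_it C u (C.c D x)

omit [FiniteDimensional k V] in
private theorem P2b_it_append (C : Cn k V) (D : Derivation ℤ k k) (u : List (Derivation ℤ k k)) :
    ∀ x : V, P2b_it C (u ++ [D]) x = C.c D (P2b_it C u x) := by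
  induction u with
  | nil => intro x; rfl
  | cons E u ih => intro x; exact ih (C.c E x)

omit [FiniteDimensional k V] in
private theorem P2b_dls {ι : Type} [Fintype ι] [DecidableEq ι] (C : Cn k V) (h1 : Fintype.card ι = 1)
    (i : ι) (lam : ι → V →ₗ[k] k) (u : List (Derivation ℤ k k)) :
    ∀ x : ι → V, dls C u (Dt lam) x = lam i (P2b_it C u (x i)) := by
  have huniq : ∀ j : ι, j = i := fun j => (Fintype.card_le_one_iff.1 h1.le) j i
  induction u with
  | nil =>
    intro x
    rw [dls_nil, Dt, Matrix.det_eq_elem_of_card_eq_one h1 i, Matrix.of_apply]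
    rfl
  | cons D u ih =>
    intro x
    rw [dls_cons, dl_apply, Finset.sum_eq_single i (fun j _ hj => absurd (huniq j) hj)
      (fun h => absurd (Finset.mem_univ i) h), ih, Function.update_self]
    rfl

/-- Proof. `ι` has one element: `Dt lam f = lam₀ f₀` and `dls C w (Dt lam) f = lam₀ (iterated derivative of f₀)`. If all these vanish then the span of all the iterated derivatives
`C.c D_1 (C.c D_2 (.. f₀))` is a stable subspace (Leibniz rule, additivity; every word, in the right order) in the kernel of `lam₀`, and it contains `f₀ ≠ 0`: so it is `⊤` and `lam₀ = 0`; but the common kernel `P` of the `lam i` has the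
dimension `finrank V - 1`. -/
theorem hit_gen (C : Cn k V) (F P : Submodule k V) (hF : Module.finrank k F = 1)
    (hgen : ∀ U : Submodule k V, (∀ D, ∀ x ∈ U, C.c D x ∈ U) → F ≤ U → U = ⊤) : Hit C F P := by
  intro ι _ _ lam f hP hf hfF hc1 hc2
  rw [hF] at hc1
  by_contra hcon
  push Not at hcon
  obtain ⟨i, -⟩ := Fintype.card_eq_one_iff.1 hc1
  have huniq : ∀ j : ι, j = i := fun j => (Fintype.card_le_one_iff.1 hc1.le) j i
  have hz : ∀ u : List (Derivation ℤ k k), lam i (P2b_it C u (f i)) = 0 := fun u => by
    rw [← P2b_dls C hc1 i lam u f]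
    exact hcon u
  let U : Submodule k V := Submodule.span k (Set.range fun u => P2b_it C u (f i))
  have hst : ∀ D, ∀ x ∈ U, C.c D x ∈ U := by
    intro D x hx
    induction hx using Submodule.span_induction with
    | mem y hy =>
      obtain ⟨u, rfl⟩ := hy
      exact Submodule.subset_span ⟨u ++ [D], P2b_it_append C D u (f i)⟩
    | zero =>
      rw [C.zero]
      exact U.zero_mem
    | add y z _ _ hy hz =>
      rw [C.add]
      exact U.add_mem hy hz
    | smul a y hy' hy =>
      rw [C.leib]
      exact U.add_mem (U.smul_mem a hy) (U.smul_mem (D a) hy')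
  have hfU : f i ∈ U := Submodule.subset_span ⟨[], rfl⟩
  have hf0 : f i ≠ 0 := hf.ne_zero i
  have hker : U ≤ LinearMap.ker (lam i) := by
    refine Submodule.span_le.2 ?_
    rintro y ⟨u, rfl⟩
    exact hz u
  have hFU : F ≤ U := by
    have h1 : Submodule.span k {f i} = F := by
      refine Submodule.eq_of_le_of_finrank_eq ((Submodule.span_singleton_le_iff_mem _ _).2 (hfF i)) ?_
      rw [finrank_span_singleton hf0, hF]
    rw [← h1]
    exact (Submodule.span_singleton_le_iff_mem _ _).2 hfU
  have h := hgen U hst hFU
  have hPt : P = ⊤ := by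
    refine Submodule.eq_top_iff'.2 fun x => (hP x).1 fun j => ?_
    rw [huniq j]
    have hx : x ∈ U := by
      rw [h]
      exact Submodule.mem_top
    exact hker hx
  rw [hPt, finrank_top, hc1] at hc2
  omega

end MPadcTT
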