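import Pool.Agent.Lib.MP_adc574_ag_TT.V1

/-! LEAF P3: `F` is a hyperplane without stable subspaces -/

set_option autoImplicit false

namespace MPadcTT

universe u v w

variable {k : Type u} [Field k] {V : Type v} [AddCommGroup V] [Module k V] [FiniteDimensional k V]

omit [FiniteDimensional k V] in
private theorem P3b_dls {ι : Type} [Fintype ι] [DecidableEq ι] {r : ℕ} (e : ι ≃ Fin r) (C : Cn k V)
    (Ψ : (ι → V) → k) (w : List (Derivation ℤ k k)) : ∀ y : Fin r → V,
      dls C w Ψ (fun i => y (e i)) = dls C w (fun z : Fin r → V => Ψ fun i => z (e i)) y := by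
  induction w with
  | nil =>
    intro y
    rfl
  | cons D w ih =>
    intro y
    rw [dls_cons, dls_cons, dl_apply, dl_apply, ← Equiv.sum_comp e]
    refine Finset.sum_congr rfl fun j _ => ?_
    rw [← ih]
    congr 1
    funext i
    by_cases h : i = j
    · subst h
      rw [Function.update_self, Function.update_self]
    · rw [Function.update_of_ne h, Function.update_of_ne fun h' => h (e.injective h')]

omit [FiniteDimensional k V] in
private theorem P3b_Dt {ι : Type} [Fintype ι] [DecidableEq ι] {r : ℕ} (e : ι ≃ Fin r)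
    (lam : ι → V →ₗ[k] k) (y : Fin r → V) :
    Dt lam (fun i => y (e i)) = Dt (fun l => lam (e.symm l)) y := by
  unfold Dt
  rw [← Matrix.det_submatrix_equiv_self e.symm]
  congr 1
  ext i j
  show lam (e.symm i) (y (e (e.symm j))) = lam (e.symm i) (y j)
  rw [Equiv.apply_symm_apply]

/-- vectors on which the functionals are dual -/
private theorem P3b_dual {r : ℕ} {P : Submodule k V} (hd : r + Module.finrank k P = Module.finrank k V)
    (mu : Fin r → V →ₗ[k] k) (hl : ∀ x, (∀ i, mu i x = 0) ↔ x ∈ P) :
    ∃ f : Fin r → V, (∀ i j, mu i (f j) = if i = j then 1 else 0) ∧ Dt mu f = 1 := by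
  have hker : LinearMap.ker (LinearMap.pi mu) = P := by
    ext x
    rw [LinearMap.mem_ker, ← hl x]
    constructor
    · intro h i
      exact congrFun h i
    · intro h
      exact funext h
  have h1 := LinearMap.finrank_range_add_finrank_ker (LinearMap.pi mu)
  rw [hker] at h1
  have h2 : Module.finrank k (LinearMap.range (LinearMap.pi mu)) = Module.finrank k (Fin r → k) := by
    rw [Module.finrank_fin_fun]
    omega
  have h3 : Function.Surjective (LinearMap.pi mu) :=
    LinearMap.range_eq_top.1 (Submodule.eq_top_of_finrank_eq h2)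
  choose f hf using fun j : Fin r => h3 (Pi.single j 1)
  have h4 : ∀ i j, mu i (f j) = if i = j then 1 else 0 := by
    intro i j
    have h5 := congrFun (hf j) i
    rw [LinearMap.pi_apply, Pi.single_apply] at h5
    exact h5
  refine ⟨f, h4, ?_⟩
  unfold Dt
  have h5 : (Matrix.of fun i j => mu i (f j)) = 1 := by
    ext i j
    rw [Matrix.of_apply, h4, Matrix.one_apply]
  rw [h5, Matrix.det_one]

omit [FiniteDimensional k V] in
/-- the derivative of the first argument -/
private theorem P3b_split (C : Cn k V) (D : Derivation ℤ k k) {r : ℕ} (ω : V [⋀^Fin (r + 1)]→ₗ[k] k) (u : V)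
    (x : Fin r → V) :
    ∑ l, ω (Function.update (Fin.cons u x : Fin (r + 1) → V) l (C.c D ((Fin.cons u x : Fin (r + 1) → V) l))) =
      ω.curryLeft (C.c D u) x + ∑ l, ω.curryLeft u (Function.update x l (C.c D (x l))) := by
  rw [Fin.sum_univ_succ]
  congr 1
  · rw [Fin.cons_zero, Fin.update_cons_zero]
    rfl
  · refine Finset.sum_congr rfl fun l _ => ?_
    rw [Fin.cons_succ, ← Fin.cons_update]
    rfl

/-- Proof. Let `r + 1 = finrank V`, `g` a basis of `V`, `vol` the determinant with respect to it (`g.det`), an alternating form with `r + 1` arguments. For a derivation `D` the form `D (vol x) - ∑ vol (.. C.c D (x l) ..)` is alternating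
with `r + 1` arguments (`exists_dform`), so it is `τ vol` for some `τ` in `k` (spaces of dimension one: `AlternatingMap.eq_smul_basis_det`). For `v` in `V` let `Φ_v (x) = vol (v, x_1, .., x_r)`. Then `dv C D Φ_v = τ Φ_v + Φ_(C.c D v)` (move the term of `v`).
Let `P = k v` (dimension one). `Dt lam = c Φ_v` with `c ≠ 0` (`form_eq`). Suppose `dls C w (Dt lam) f = 0` for all `w`, `f` a basis of `F`. `U = {u | dls C w Φ_u f = 0 for all w}` is a subspace, contains `v ≠ 0`, and is stable by `leib_dls`
(`dls C w (dv C D Φ_u) f = D 0 - 0 = 0`, so `dls C w Φ_(C.c D u) f = 0`). For `u` in `U` the word `[]` gives `vol (u, f) = 0`, so `u` is in the span `F` of `f`: so `U ≤ F`, and `U = ⊥`. -/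
theorem hit_cogen (C : Cn k V) (F P : Submodule k V) (hF : Module.finrank k F + 1 = Module.finrank k V)
    (hno : ∀ U : Submodule k V, (∀ D, ∀ x ∈ U, C.c D x ∈ U) → U ≤ F → U = ⊥) : Hit C F P := by
  classical
  intro ι _ _ lam f hlam hf hfF hc hd
  obtain ⟨e⟩ : Nonempty (ι ≃ Fin (Fintype.card ι)) := ⟨Fintype.equivFin ι⟩
  obtain ⟨r, hr⟩ : ∃ r, r = Fintype.card ι := ⟨_, rfl⟩
  rw [← hr] at e
  obtain ⟨y, hy⟩ : ∃ y : Fin r → V, y = fun l => f (e.symm l) := ⟨_, rfl⟩
  obtain ⟨mu, hmu⟩ : ∃ mu : Fin r → V →ₗ[k] k, mu = fun l => lam (e.symm l) := ⟨_, rfl⟩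
  have hfy : f = fun i => y (e i) := by
    funext i
    rw [hy]
    show f i = f (e.symm (e i))
    rw [Equiv.symm_apply_apply]
  have hDt : (fun z : Fin r → V => Dt lam fun i => z (e i)) = Dt mu := by
    funext z
    rw [P3b_Dt e lam z, hmu]
  by_contra hcon
  push Not at hcon
  have h1 : ∀ w, dls C w (Dt mu) y = 0 := by
    intro w
    have h2 := hcon w
    rw [hfy, P3b_dls e C (Dt lam) w y, hDt] at h2
    exact h2
  have hmuP : ∀ x, (∀ i, mu i x = 0) ↔ x ∈ P := by
    intro x
    rw [← hlam x, hmu]
    constructor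
    · intro h i
      have h2 : lam (e.symm (e i)) x = 0 := h (e i)
      rwa [Equiv.symm_apply_apply] at h2
    · intro h l
      exact h (e.symm l)
  have hyli : LinearIndependent k y := by
    rw [hy]
    exact hf.comp _ e.symm.injective
  rw [← hr] at hc hd
  have hdV : Module.finrank k V = r + 1 := by omega
  have hdP : Module.finrank k P = 1 := by omega
  obtain ⟨f', hf', hf'1⟩ := P3b_dual hd mu hmuP
  -- the line
  obtain ⟨v, hv0, hvP⟩ := finrank_eq_one_iff'.1 hdP
  have hv0' : (v : V) ≠ 0 := fun h => hv0 (Subtype.ext h)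
  have hmuv : ∀ i, mu i v = 0 := (hmuP v).2 v.2
  -- the volume form
  let g : Module.Basis (Fin (r + 1)) k V := Module.finBasisOfFinrankEq k V hdV
  have hbas : ∀ z : Fin (r + 1) → V, LinearIndependent k z → g.det z ≠ 0 := by
    intro z hz
    have h2 : Submodule.span k (Set.range z) = ⊤ := by
      refine hz.span_eq_top_of_card_eq_finrank' ?_
      rw [hdV, Fintype.card_fin]
    exact ((Module.Basis.is_basis_iff_det g).1 ⟨hz, h2⟩).ne_zero
  have hPhi0 : g.det.curryLeft (v : V) ≠ 0 := by
    intro h
    have h2 : g.det (Fin.cons (v : V) f' : Fin (r + 1) → V) = 0 := by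
      have h3 := congrArg (fun ω : V [⋀^Fin r]→ₗ[k] k => ω f') h
      exact h3
    refine hbas _ ?_ h2
    rw [Fintype.linearIndependent_iff]
    intro a ha
    rw [Fin.sum_univ_succ] at ha
    have h3 : ∀ l : Fin r, a l.succ = 0 := by
      intro l
      have h4 := congrArg (mu l) ha
      rw [map_add, map_smul, Fin.cons_zero, hmuv, smul_zero, zero_add, map_sum, map_zero] at h4
      rw [← h4]
      rw [Finset.sum_eq_single l]
      · rw [map_smul, Fin.cons_succ, hf', if_pos rfl, smul_eq_mul, mul_one]
      · intro j _ hj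
        rw [map_smul, Fin.cons_succ, hf', if_neg (Ne.symm hj), smul_zero]
      · intro h5
        exact absurd (Finset.mem_univ l) h5
    have h5 : a 0 • (v : V) = 0 := by
      rw [← ha, Finset.sum_eq_zero, add_zero]
      · rfl
      · intro l _
        rw [h3 l, zero_smul]
    intro l
    refine Fin.cases ?_ h3 l
    exact (smul_eq_zero.1 h5).resolve_right hv0'
  have hkill : ∀ x : Fin r → V, (∃ l, x l ∈ P) → g.det.curryLeft (v : V) x = 0 := by
    rintro x ⟨l, hl⟩
    obtain ⟨c, hc'⟩ := hvP ⟨x l, hl⟩
    have hc2 : c • (v : V) = x l := congrArg Subtype.val hc'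
    have h2 : x = Function.update x l (c • (v : V)) := by
      rw [hc2, Function.update_eq_self]
    rw [h2, AlternatingMap.map_update_smul]
    have h3 : g.det.curryLeft (v : V) (Function.update x l (v : V)) = 0 := by
      rw [AlternatingMap.curryLeft_apply_apply]
      refine AlternatingMap.map_eq_zero_of_eq _ _ (i := 0) (j := l.succ) ?_ (Fin.succ_ne_zero l).symm
      rw [Matrix.cons_val_zero, Matrix.cons_val_succ, Function.update_self]
    rw [h3, smul_zero]
  obtain ⟨c, hc0, hcx⟩ := form_eq hd mu (fun i x hx => (hmuP x).2 hx i) f' (by rw [hf'1]; exact one_ne_zero)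
    (g.det.curryLeft (v : V)) hPhi0 hkill
  obtain ⟨W, hW, hW2⟩ := exists_horf C y
  have hvW : g.det.curryLeft (v : V) ∈ W := by
    rw [hW2]
    intro w
    have h2 : (fun z : Fin r → V => g.det.curryLeft (v : V) z) = fun z => c * Dt mu z := funext hcx
    rw [h2, dls_smul, h1 w, mul_zero]
  -- the stable subspace
  have hst : ∀ D, ∀ u ∈ W.comap g.det.curryLeft, C.c D u ∈ W.comap g.det.curryLeft := by
    intro D u hu
    rw [Submodule.mem_comap] at hu ⊢
    obtain ⟨ω', hω', hx'⟩ := hW D _ hu
    obtain ⟨Ω, hΩ⟩ := exists_dform C D g.det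
    have hΩ2 := AlternatingMap.eq_smul_basis_det g Ω
    have h2 : g.det.curryLeft (C.c D u) = ω' - Ω g • g.det.curryLeft u := by
      ext x
      rw [AlternatingMap.sub_apply, AlternatingMap.smul_apply, hx' x]
      have h3 := hΩ (Fin.cons u x)
      rw [P3b_split] at h3
      have h4 : Ω (Fin.cons u x) = Ω g • g.det.curryLeft u x := by
        have h5 := congrArg (fun ω : V [⋀^Fin (r + 1)]→ₗ[k] k => ω (Fin.cons u x)) hΩ2
        exact h5
      rw [h4] at h3
      have h5 : g.det (Fin.cons u x : Fin (r + 1) → V) = g.det.curryLeft u x := rfl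
      rw [h5] at h3
      rw [h3]
      ring
    rw [h2]
    exact W.sub_mem hω' (W.smul_mem _ hu)
  have hvU : (v : V) ∈ W.comap g.det.curryLeft := by
    rw [Submodule.mem_comap]
    exact hvW
  have hle : W.comap g.det.curryLeft ≤ F := by
    intro u h2
    rw [Submodule.mem_comap, hW2] at h2
    have h3 := h2 []
    rw [dls_nil] at h3
    have hu : u ∈ Submodule.span k (Set.range y) := by
      by_contra hu
      exact hbas (Fin.cons u y) (linearIndependent_finCons.2 ⟨hyli, hu⟩) h3
    refine Submodule.span_le.2 ?_ hu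
    rintro _ ⟨l, rfl⟩
    rw [hy]
    exact hfF _
  have h := hno _ hst hle
  rw [h] at hvU
  exact hv0' ((Submodule.mem_bot k).1 hvU)

end MPadcTT
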