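import Pool.Agent.Lib.MP_adc574_ag_TT.V1

/-! LEAF P5: general position implies hits -/

set_option autoImplicit false

namespace MPadcTT

universe u v w

variable {k : Type u} [Field k] {V : Type v} [AddCommGroup V] [Module k V] [FiniteDimensional k V]

omit [FiniteDimensional k V] in
private theorem P5_dls {ι : Type} [Fintype ι] [DecidableEq ι] {r : ℕ} (e : ι ≃ Fin r) (C : Cn k V)
    (Ψ : (ι → V) → k) (w : List (Derivation ℤ k k)) : ∀ y : Fin r → V,
      dls C w Ψ (fun i => y (e i)) = dls C w (fun z : Fin r → V => Ψ fun i => z (e i)) y := by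
  induction w with
  | nil =>
    intro y
    rfl
  | cons D w ih =>
    intro y
    rw [dls_cons, dls_cons, dl_apply, dl_apply, ← Equiv.sum_comp e]
    refine Finset.sum_congr rfl fun j _ => ?_
    rw [← ih]
    congr 1
    funext i
    by_cases h : i = j
    · subst h
      rw [Function.update_self, Function.update_self]
    · rw [Function.update_of_ne h, Function.update_of_ne fun h' => h (e.injective h')]

omit [FiniteDimensional k V] in
private theorem P5_Dt {ι : Type} [Fintype ι] [DecidableEq ι] {r : ℕ} (e : ι ≃ Fin r)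
    (lam : ι → V →ₗ[k] k) (y : Fin r → V) :
    Dt lam (fun i => y (e i)) = Dt (fun l => lam (e.symm l)) y := by
  unfold Dt
  rw [← Matrix.det_submatrix_equiv_self e.symm]
  congr 1
  ext i j
  show lam (e.symm i) (y (e (e.symm j))) = lam (e.symm i) (y j)
  rw [Equiv.apply_symm_apply]

/-- vectors on which the functionals are dual -/
private theorem P5_dual {r : ℕ} {P : Submodule k V} (hd : r + Module.finrank k P = Module.finrank k V)
    (mu : Fin r → V →ₗ[k] k) (hl : ∀ x, (∀ i, mu i x = 0) ↔ x ∈ P) : ∃ f : Fin r → V, Dt mu f = 1 := by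
  have hker : LinearMap.ker (LinearMap.pi mu) = P := by
    ext x
    rw [LinearMap.mem_ker, ← hl x]
    constructor
    · intro h i
      exact congrFun h i
    · intro h
      exact funext h
  have h1 := LinearMap.finrank_range_add_finrank_ker (LinearMap.pi mu)
  rw [hker] at h1
  have h2 : Module.finrank k (LinearMap.range (LinearMap.pi mu)) = Module.finrank k (Fin r → k) := by
    rw [Module.finrank_fin_fun]
    omega
  have h3 : Function.Surjective (LinearMap.pi mu) :=
    LinearMap.range_eq_top.1 (Submodule.eq_top_of_finrank_eq h2)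
  choose f hf using fun j : Fin r => h3 (Pi.single j 1)
  refine ⟨f, ?_⟩
  unfold Dt
  have h5 : (Matrix.of fun i j => mu i (f j)) = 1 := by
    ext i j
    have h5 := congrFun (hf j) i
    rw [LinearMap.pi_apply, Pi.single_apply] at h5
    rw [Matrix.of_apply, h5, Matrix.one_apply]
  rw [h5, Matrix.det_one]

/-- Proof. Reindex `ι` by `Fin r`, `r = finrank F`. Suppose `dls C w (Dt lam) f = 0` for all `w`. The horizontal space `W` of
`exists_horf C f` contains the form `ω` with `ω x = Dt lam x` (`exists_dtform`), it is not zero and it is killed by `P`. By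
`h` there are `ω'` in `W` and `x` with values in `F` such that `ω' x ≠ 0`; but `ω' f = 0` (word `[]`), and `f` is a basis of
`F`, so `ω'` vanishes on `F`. -/
theorem hit_pos (C : Cn k V) (F P : Submodule k V)
    (h : Module.finrank k P + Module.finrank k F = Module.finrank k V →
      ∀ W : Submodule k (V [⋀^Fin (Module.finrank k F)]→ₗ[k] k), Hor C W →
        (∃ ω ∈ W, ω ≠ 0 ∧ ∀ x : Fin (Module.finrank k F) → V, (∃ l, x l ∈ P) → ω x = 0) →
          ∃ ω ∈ W, ∃ x, (∀ l, x l ∈ F) ∧ ω x ≠ 0) : Hit C F P := by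
  classical
  intro ι _ _ lam f hlam hf hfF hc hd
  let e : ι ≃ Fin (Module.finrank k F) := Fintype.equivFinOfCardEq hc
  obtain ⟨y, hy⟩ : ∃ y : Fin (Module.finrank k F) → V, y = fun l => f (e.symm l) := ⟨_, rfl⟩
  obtain ⟨mu, hmu⟩ : ∃ mu : Fin (Module.finrank k F) → V →ₗ[k] k, mu = fun l => lam (e.symm l) := ⟨_, rfl⟩
  have hfy : f = fun i => y (e i) := by
    funext i
    rw [hy]
    show f i = f (e.symm (e i))
    rw [Equiv.symm_apply_apply]
  have hDt : (fun z : Fin (Module.finrank k F) → V => Dt lam fun i => z (e i)) = Dt mu := by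
    funext z
    rw [P5_Dt e lam z, hmu]
  by_contra hcon
  push Not at hcon
  have h1 : ∀ w, dls C w (Dt mu) y = 0 := by
    intro w
    have h2 := hcon w
    rw [hfy, P5_dls e C (Dt lam) w y, hDt] at h2
    exact h2
  have hmuP : ∀ x, (∀ i, mu i x = 0) ↔ x ∈ P := by
    intro x
    rw [← hlam x, hmu]
    constructor
    · intro h i
      have h2 : lam (e.symm (e i)) x = 0 := h (e i)
      rwa [Equiv.symm_apply_apply] at h2
    · intro h l
      exact h (e.symm l)
  rw [hc] at hd
  obtain ⟨f', hf'⟩ := P5_dual hd mu hmuP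
  obtain ⟨W, hW, hW2⟩ := exists_horf C y
  obtain ⟨ω, hω⟩ := exists_dtform mu
  have hωW : ω ∈ W := by
    rw [hW2]
    intro w
    have h2 : (fun z : Fin (Module.finrank k F) → V => ω z) = Dt mu := funext hω
    rw [h2]
    exact h1 w
  have hω0 : ω ≠ 0 := by
    rintro rfl
    rw [← hω] at hf'
    exact zero_ne_one hf'
  have hkill : ∀ x : Fin (Module.finrank k F) → V, (∃ l, x l ∈ P) → ω x = 0 := by
    rintro x ⟨l, hl⟩
    rw [hω]
    exact Matrix.det_eq_zero_of_column_eq_zero l fun i => (hmuP _).2 hl i
  obtain ⟨ω', hω', x, hxF, hx⟩ := h (by rw [add_comm]; exact hd) W hW ⟨ω, hωW, hω0, hkill⟩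
  have h2 := (hW2 _).1 hω' []
  rw [dls_nil] at h2
  have hyF : ∀ j, y j ∈ F := fun j => by
    rw [hy]
    exact hfF _
  have hyli : LinearIndependent k y := by
    rw [hy]
    exact hf.comp _ e.symm.injective
  have hli : LinearIndependent k (fun j => (⟨y j, hyF j⟩ : F)) := by
    refine LinearIndependent.of_comp F.subtype ?_
    exact hyli
  let g : Module.Basis (Fin (Module.finrank k F)) k F :=
    basisOfLinearIndependentOfCardEqFinrank' _ hli (Fintype.card_fin _)
  have hg : ∀ j, g j = (⟨y j, hyF j⟩ : F) := fun j => by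
    rw [coe_basisOfLinearIndependentOfCardEqFinrank']
  have h3 := AlternatingMap.eq_smul_basis_det g (ω'.compLinearMap F.subtype)
  have h4 : (ω'.compLinearMap F.subtype) g = 0 := by
    rw [← h2]
    show ω' (fun j => ((g j : F) : V)) = ω' y
    congr 1
    funext j
    rw [hg]
  rw [h4, zero_smul] at h3
  apply hx
  have h5 := congrArg (fun η : F [⋀^Fin (Module.finrank k F)]→ₗ[k] k => η fun l => (⟨x l, hxF l⟩ : F)) h3
  exact h5

end MPadcTT
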